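import Pool.Agent.Q37.BV.Cnt

/-! The abstract inequality: bounded functions that are constant on short windows are
equidistributed in residue classes, on average over the moduli. -/

set_option autoImplicit false

namespace Pool.Agent.Q37.BV

open Finset

/-- the weight -/
noncomputable def wt (S : Finset ℕ) (e : ℕ → ℝ) (a : ℕ → ℤ) (n : ℤ) : ℝ := ∑ q ∈ S, e q * bal q (a q) n

theorem wt_abs_le {S : Finset ℕ} {e : ℕ → ℝ} (he : ∀ q, |e q| ≤ 1) (a : ℕ → ℤ) (n : ℤ) :
    |wt S e a n| ≤ ∑ q ∈ S, (ind q (a q) n + 1 / q) := by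
  unfold wt
  refine (abs_sum_le_sum_abs _ _).trans (sum_le_sum fun q _ => ?_)
  rw [abs_mul]
  have h1 : |bal q (a q) n| ≤ ind q (a q) n + 1 / q := by
    unfold bal
    have h2 := ind_nonneg q (a q) n
    have h3 : (0 : ℝ) ≤ 1 / q := by positivity
    rw [abs_le]
    constructor <;> linarith
  calc |e q| * |bal q (a q) n| ≤ 1 * |bal q (a q) n| := mul_le_mul_of_nonneg_right (he q) (abs_nonneg _)
    _ ≤ _ := by rw [one_mul]; exact h1

theorem sum_shift (X : ℤ) (L : ℕ) (i : ℤ) (g : ℤ → ℝ) :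
    ∑ n ∈ Ico X (X + L), g (n + i) = ∑ m ∈ Ico (X + i) (X + L + i), g m := by
  apply sum_bij' (fun n _ => n + i) (fun m _ => m - i)
  · intro n hn; rw [mem_Ico] at hn ⊢; omega
  · intro n hn; rw [mem_Ico] at hn ⊢; omega
  · intro n _; simp
  · intro n _; simp
  · intro n _; rfl

theorem sum_diff_le {A B : Finset ℤ} (g : ℤ → ℝ) :
    |∑ m ∈ A, g m - ∑ m ∈ B, g m| ≤ ∑ m ∈ A \ B, |g m| + ∑ m ∈ B \ A, |g m| := by
  have h1 : ∑ m ∈ A, g m = ∑ m ∈ A \ B, g m + ∑ m ∈ A ∩ B, g m := by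
    rw [← sum_union (disjoint_sdiff_inter A B), sdiff_union_inter]
  have h2 : ∑ m ∈ B, g m = ∑ m ∈ B \ A, g m + ∑ m ∈ A ∩ B, g m := by
    rw [inter_comm, ← sum_union (disjoint_sdiff_inter B A), sdiff_union_inter]
  rw [h1, h2]
  have h3 : |∑ m ∈ A \ B, g m| ≤ ∑ m ∈ A \ B, |g m| := abs_sum_le_sum_abs _ _
  have h4 : |∑ m ∈ B \ A, g m| ≤ ∑ m ∈ B \ A, |g m| := abs_sum_le_sum_abs _ _
  rw [abs_le] at h3 h4 ⊢
  constructor <;> linarith [h3.1, h3.2, h4.1, h4.2]

/-- moving the window -/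
theorem move (X : ℤ) (L H : ℕ) {w F : ℤ → ℝ} (hF : ∀ n, |F n| ≤ 1) {i : ℤ} (hi0 : 0 ≤ i) (hi : i < H) :
    |∑ n ∈ Ico X (X + L), w n * F (n + i) - ∑ m ∈ Ico X (X + L), w (m - i) * F m| ≤
      ∑ n ∈ Ico (X - H) X, |w n| + ∑ n ∈ Ico (X + L - H) (X + L), |w n| := by
  have e1 : ∑ n ∈ Ico X (X + L), w n * F (n + i) = ∑ m ∈ Ico (X + i) (X + L + i), w (m - i) * F m := by
    rw [← sum_shift X L i (fun m => w (m - i) * F m)]
    apply sum_congr rfl
    intro n _
    rw [show n + i - i = n by ring]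
  rw [e1]
  refine (sum_diff_le _).trans ?_
  have hle : ∀ m : ℤ, |w (m - i) * F m| ≤ |w (m - i)| := by
    intro m
    rw [abs_mul]
    exact mul_le_of_le_one_right (abs_nonneg _) (hF m)
  have key : ∀ (C : Finset ℤ) (u v : ℤ), (∀ m ∈ C, u ≤ m - i ∧ m - i < v) →
      ∑ m ∈ C, |w (m - i) * F m| ≤ ∑ n ∈ Ico u v, |w n| := by
    intro C u v hC
    calc ∑ m ∈ C, |w (m - i) * F m| ≤ ∑ m ∈ C, |w (m - i)| := sum_le_sum fun m _ => hle m
      _ = ∑ n ∈ C.image (fun m => m - i), |w n| := by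
          rw [sum_image]
          intro x _ y _ h
          simpa using h
      _ ≤ ∑ n ∈ Ico u v, |w n| := by
          apply sum_le_sum_of_subset_of_nonneg
          · intro n hn
            rw [mem_image] at hn
            obtain ⟨m, hm, rfl⟩ := hn
            rw [mem_Ico]
            exact hC m hm
          · intro _ _ _; exact abs_nonneg _
  have k1 := key (Ico (X + i) (X + L + i) \ Ico X (X + L)) (X + L - H) (X + L) (by
    intro m hm
    rw [mem_sdiff, mem_Ico, mem_Ico] at hm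
    omega)
  have k2 := key (Ico X (X + L) \ Ico (X + i) (X + L + i)) (X - H) X (by
    intro m hm
    rw [mem_sdiff, mem_Ico, mem_Ico] at hm
    omega)
  linarith

open Classical in
/-- **The abstract inequality.** -/
theorem main (X : ℤ) (L : ℕ) {H : ℕ} (hH : 1 ≤ H) {w F : ℤ → ℝ} (hF : ∀ n, 0 ≤ F n ∧ F n ≤ 1)
    {Bad : ℤ → Prop}
    (hB : ∀ n ∈ Ico X (X + L), ¬ Bad n → ∀ i : ℤ, 0 ≤ i → i < H → F (n + i) = F n) :
    |∑ n ∈ Ico X (X + L), w n * F n| ≤
      ∑ n ∈ Ico X (X + L) with Bad n, |w n| +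
      (∑ n ∈ Ico (X - H) X, |w n| + ∑ n ∈ Ico (X + L - H) (X + L), |w n|) +
      |∑ m ∈ Ico X (X + L), (∑ i ∈ range H, w (m - i)) * F m| / H := by
  set S0 := ∑ n ∈ Ico X (X + L), w n * F n with hS0
  set D := ∑ n ∈ Ico X (X + L) with Bad n, |w n| with hD
  set E := ∑ n ∈ Ico (X - H) X, |w n| + ∑ n ∈ Ico (X + L - H) (X + L), |w n| with hE
  have hF1 : ∀ n, |F n| ≤ 1 := fun n => by rw [abs_of_nonneg (hF n).1]; exact (hF n).2
  have hHr : (1 : ℝ) ≤ H := by exact_mod_cast hH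
  have step1 : ∀ i ∈ range H, |S0 - ∑ m ∈ Ico X (X + L), w (m - i) * F m| ≤ D + E := by
    intro i hi
    rw [mem_range] at hi
    have hi1 : ((i : ℕ) : ℤ) < H := by exact_mod_cast hi
    have h1 := move X L H (w := w) hF1 (Int.natCast_nonneg i) hi1
    have h2 : |S0 - ∑ n ∈ Ico X (X + L), w n * F (n + i)| ≤ D := by
      rw [hS0, ← sum_sub_distrib, hD, sum_filter]
      refine (abs_sum_le_sum_abs _ _).trans (sum_le_sum fun n hn => ?_)
      by_cases hb : Bad n
      · rw [if_pos hb, ← mul_sub, abs_mul]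
        apply mul_le_of_le_one_right (abs_nonneg _)
        have h3 := hF n
        have h4 := hF (n + i)
        rw [abs_le]
        constructor <;> linarith [h3.1, h3.2, h4.1, h4.2]
      · rw [if_neg hb, hB n hn hb i (Int.natCast_nonneg i) hi1, sub_self, abs_zero]
    have h5 := abs_sub_le S0 (∑ n ∈ Ico X (X + L), w n * F (n + i)) (∑ m ∈ Ico X (X + L), w (m - i) * F m)
    linarith
  have step2 : |(H : ℝ) * S0 - ∑ m ∈ Ico X (X + L), (∑ i ∈ range H, w (m - i)) * F m| ≤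
      H * (D + E) := by
    have e1 : ∑ m ∈ Ico X (X + L), (∑ i ∈ range H, w (m - i)) * F m =
        ∑ i ∈ range H, ∑ m ∈ Ico X (X + L), w (m - i) * F m := by
      rw [sum_comm]
      apply sum_congr rfl
      intro m _
      rw [sum_mul]
    have e2 : (H : ℝ) * S0 = ∑ i ∈ range H, S0 := by
      rw [sum_const, card_range, nsmul_eq_mul]
    have e3 : (H : ℝ) * (D + E) = ∑ i ∈ range H, (D + E) := by
      rw [sum_const, card_range, nsmul_eq_mul]
    rw [e1, e2, e3, ← sum_sub_distrib]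
    exact (abs_sum_le_sum_abs _ _).trans (sum_le_sum step1)
  set R := ∑ m ∈ Ico X (X + L), (∑ i ∈ range H, w (m - i)) * F m with hR
  have h6 : (H : ℝ) * |S0| ≤ H * (D + E + |R| / H) := by
    have h7 : |(H : ℝ) * S0| = H * |S0| := by rw [abs_mul, abs_of_nonneg (by positivity)]
    rw [← h7]
    have h8 := abs_sub_abs_le_abs_sub ((H : ℝ) * S0) R
    have h9 : (H : ℝ) * (D + E + |R| / H) = H * (D + E) + |R| := by field_simp
    rw [h9]
    linarith
  exact le_of_mul_le_mul_left h6 (by linarith)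

end Pool.Agent.Q37.BV
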