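import Pool.Agent.Q37.BV.Fou

/-! Periodic sets of small density in residue classes, and the finite form of the level of
distribution. -/

set_option autoImplicit false

namespace Pool.Agent.Q37.BV

open Finset

open Classical in
theorem two_count (X : ℤ) (L : ℕ) {q r : ℕ} (hq : 1 ≤ q) (hr : 1 ≤ r) (u v : ℤ) :
    (#{m ∈ Ico X (X + L) | (q : ℤ) ∣ m - u ∧ (r : ℤ) ∣ m - v} : ℝ) ≤ L / Nat.lcm q r + 1 := by
  by_cases hd : ((Nat.gcd q r : ℕ) : ℤ) ∣ u - v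
  · obtain ⟨m₀, hm⟩ := two_classes u v hd
    have h := card_class X L (q := Nat.lcm q r) (Nat.lcm_pos hq hr) m₀
    have e : ({m ∈ Ico X (X + L) | (q : ℤ) ∣ m - u ∧ (r : ℤ) ∣ m - v} : Finset ℤ) =
        {m ∈ Ico X (X + L) | ((Nat.lcm q r : ℕ) : ℤ) ∣ m - m₀} := by
      apply filter_congr
      intro m _
      exact hm m
    rw [e]
    rw [abs_le] at h
    linarith [h.2]
  · have e : ({m ∈ Ico X (X + L) | (q : ℤ) ∣ m - u ∧ (r : ℤ) ∣ m - v} : Finset ℤ) = ∅ := by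
      rw [filter_eq_empty_iff]
      rintro m _ ⟨h3, h4⟩
      apply hd
      have h5 : ((Nat.gcd q r : ℕ) : ℤ) ∣ m - u := (Int.natCast_dvd_natCast.2 (Nat.gcd_dvd_left q r)).trans h3
      have h6 : ((Nat.gcd q r : ℕ) : ℤ) ∣ m - v := (Int.natCast_dvd_natCast.2 (Nat.gcd_dvd_right q r)).trans h4
      have := dvd_sub h6 h5
      rwa [show m - v - (m - u) = u - v by ring] at this
    rw [e, card_empty, Nat.cast_zero]
    positivity

open Classical in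
theorem bad_class {B : ℤ → Prop} {T : ℕ} (hper : ∀ y k : ℤ, B (y + k * 2 ^ T) ↔ B y) {η : ℝ}
    (hcount : (#{c ∈ range (2 ^ T) | B ((c : ℕ) : ℤ)} : ℝ) ≤ η * 2 ^ T) (X : ℤ) (M : ℕ) {q : ℕ} (hq : 1 ≤ q) (u : ℤ) :
    (#{n ∈ Ico X (X + M) | B n ∧ (q : ℤ) ∣ n - u} : ℝ) ≤ η * (M * (Nat.gcd (2 ^ T) q) / q + 2 ^ T) := by
  have h2T : 1 ≤ 2 ^ T := Nat.one_le_two_pow
  have h2Z : (0 : ℤ) < 2 ^ T := by positivity
  have hsub : ({n ∈ Ico X (X + M) | B n ∧ (q : ℤ) ∣ n - u} : Finset ℤ) ⊆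
      ({c ∈ range (2 ^ T) | B ((c : ℕ) : ℤ)} : Finset ℕ).biUnion
        (fun c => {n ∈ Ico X (X + M) | ((2 ^ T : ℕ) : ℤ) ∣ n - ((c : ℕ) : ℤ) ∧ (q : ℤ) ∣ n - u}) := by
    intro n hn
    rw [mem_filter] at hn
    obtain ⟨hn1, hn2, hn3⟩ := hn
    rw [mem_biUnion]
    have hc0 : 0 ≤ n % 2 ^ T := Int.emod_nonneg _ h2Z.ne'
    have hc1 : n % 2 ^ T < 2 ^ T := Int.emod_lt_of_pos _ h2Z
    have hc2 : (((n % 2 ^ T).toNat : ℕ) : ℤ) = n % 2 ^ T := Int.toNat_of_nonneg hc0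
    have hdiv : n = n % 2 ^ T + (n / 2 ^ T) * 2 ^ T := by
      have := Int.mul_ediv_add_emod n (2 ^ T)
      linarith
    refine ⟨(n % 2 ^ T).toNat, ?_, ?_⟩
    · rw [mem_filter, mem_range]
      constructor
      · have : (((n % 2 ^ T).toNat : ℕ) : ℤ) < ((2 ^ T : ℕ) : ℤ) := by rw [hc2]; push_cast; exact hc1
        exact_mod_cast this
      · rw [hc2]
        rw [hdiv] at hn2
        exact (hper _ _).1 hn2
    · rw [mem_filter]
      refine ⟨hn1, ?_, hn3⟩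
      rw [hc2]
      refine ⟨n / 2 ^ T, ?_⟩
      push_cast
      linarith
  have h1 := (card_le_card hsub).trans card_biUnion_le
  have h1' : (#{n ∈ Ico X (X + M) | B n ∧ (q : ℤ) ∣ n - u} : ℝ) ≤
      ∑ c ∈ range (2 ^ T) with B ((c : ℕ) : ℤ),
        (#{n ∈ Ico X (X + M) | ((2 ^ T : ℕ) : ℤ) ∣ n - ((c : ℕ) : ℤ) ∧ (q : ℤ) ∣ n - u} : ℝ) := by
    exact_mod_cast h1
  have hl : (0 : ℝ) < Nat.lcm (2 ^ T) q := by exact_mod_cast Nat.lcm_pos h2T hq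
  refine h1'.trans ?_
  calc _ ≤ ∑ c ∈ range (2 ^ T) with B ((c : ℕ) : ℤ), ((M : ℝ) / Nat.lcm (2 ^ T) q + 1) :=
        sum_le_sum fun c _ => two_count X M h2T hq _ u
    _ = (#{c ∈ range (2 ^ T) | B ((c : ℕ) : ℤ)} : ℝ) * ((M : ℝ) / Nat.lcm (2 ^ T) q + 1) := by
        rw [sum_const, nsmul_eq_mul]
    _ ≤ (η * 2 ^ T) * ((M : ℝ) / Nat.lcm (2 ^ T) q + 1) := mul_le_mul_of_nonneg_right hcount (by positivity)
    _ = η * (M * (Nat.gcd (2 ^ T) q) / q + 2 ^ T) := by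
        have hgl : (Nat.gcd (2 ^ T) q : ℝ) * Nat.lcm (2 ^ T) q = 2 ^ T * q := by
          exact_mod_cast Nat.gcd_mul_lcm (2 ^ T) q
        have hq0 : (q : ℝ) ≠ 0 := by positivity
        have : (Nat.gcd (2 ^ T) q : ℝ) / q = 2 ^ T / Nat.lcm (2 ^ T) q := by
          rw [div_eq_div_iff hq0 hl.ne', hgl]
        rw [mul_div_assoc, this]
        ring

theorem gcd_le {T J q : ℕ} (h : ¬ 2 ^ J ∣ q) : Nat.gcd (2 ^ T) q ≤ 2 ^ J := by
  obtain ⟨i, -, hi⟩ := (Nat.dvd_prime_pow Nat.prime_two).1 (Nat.gcd_dvd_left (2 ^ T) q)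
  rw [hi]
  by_contra hcon
  push Not at hcon
  have h1 : J ≤ i := by
    by_contra h2
    have := Nat.pow_le_pow_right (show 0 < 2 by norm_num) (by omega : i ≤ J)
    omega
  apply h
  exact (pow_dvd_pow 2 h1).trans (hi ▸ Nat.gcd_dvd_right (2 ^ T) q)

open Classical in
theorem bad_sum {B : ℤ → Prop} {T : ℕ} (hper : ∀ y k : ℤ, B (y + k * 2 ^ T) ↔ B y) {η : ℝ} (hη : 0 ≤ η)
    (hcount : (#{c ∈ range (2 ^ T) | B ((c : ℕ) : ℤ)} : ℝ) ≤ η * 2 ^ T) (X : ℤ) (M J : ℕ) {Q : ℕ} (hQ : 1 ≤ Q)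
    {e : ℕ → ℝ} (he : ∀ q, |e q| ≤ 1) (a : ℕ → ℤ) :
    ∑ n ∈ Ico X (X + M) with B n, |wt (Ico Q (2 * Q)) e a n| ≤
      η * (M * 2 ^ J + Q * 2 ^ T) + 3 * (M + Q) / 2 ^ J + η * (M + 2 ^ T) := by
  have hQ1 : (0 : ℝ) < Q := by exact_mod_cast hQ
  have hbad : (#{n ∈ Ico X (X + M) | B n} : ℝ) ≤ η * (M + 2 ^ T) := by
    have h := bad_class hper hcount X M (q := 1) le_rfl 0
    have e1 : ({n ∈ Ico X (X + M) | B n ∧ ((1 : ℕ) : ℤ) ∣ n - 0} : Finset ℤ) = {n ∈ Ico X (X + M) | B n} := by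
      apply filter_congr
      intro n _
      simp
    rw [e1] at h
    simpa using h
  have s1 : ∑ n ∈ Ico X (X + M) with B n, |wt (Ico Q (2 * Q)) e a n| ≤
      ∑ q ∈ Ico Q (2 * Q), ((#{n ∈ Ico X (X + M) | B n ∧ (q : ℤ) ∣ n - a q} : ℝ) +
        (#{n ∈ Ico X (X + M) | B n} : ℝ) * (1 / Q)) := by
    calc ∑ n ∈ Ico X (X + M) with B n, |wt (Ico Q (2 * Q)) e a n|
        ≤ ∑ n ∈ Ico X (X + M) with B n, ∑ q ∈ Ico Q (2 * Q), (ind q (a q) n + 1 / q) :=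
          sum_le_sum fun n _ => wt_abs_le he a n
      _ = ∑ q ∈ Ico Q (2 * Q), ∑ n ∈ Ico X (X + M) with B n, (ind q (a q) n + 1 / q) := sum_comm
      _ ≤ _ := by
          apply sum_le_sum
          intro q hq
          rw [mem_Ico] at hq
          rw [sum_add_distrib, sum_const, nsmul_eq_mul]
          apply add_le_add
          · apply le_of_eq
            unfold ind
            rw [← filter_filter, card_filter]
            push_cast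
            rfl
          · apply mul_le_mul_of_nonneg_left _ (Nat.cast_nonneg _)
            apply one_div_le_one_div_of_le hQ1
            exact_mod_cast hq.1
  refine s1.trans ?_
  rw [sum_add_distrib, sum_const, Nat.card_Ico, nsmul_eq_mul]
  have e1 : ((2 * Q - Q : ℕ) : ℝ) = Q := by
    rw [show 2 * Q - Q = Q by omega]
  rw [e1]
  have h2 : (Q : ℝ) * ((#{n ∈ Ico X (X + M) | B n} : ℝ) * (1 / Q)) ≤ η * (M + 2 ^ T) := by
    have : (Q : ℝ) * ((#{n ∈ Ico X (X + M) | B n} : ℝ) * (1 / Q)) = (#{n ∈ Ico X (X + M) | B n} : ℝ) := by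
      field_simp
    rw [this]
    exact hbad
  have h3 : ∑ q ∈ Ico Q (2 * Q), (#{n ∈ Ico X (X + M) | B n ∧ (q : ℤ) ∣ n - a q} : ℝ) ≤
      η * (M * 2 ^ J + Q * 2 ^ T) + 3 * (M + Q) / 2 ^ J := by
    have h4 : ∀ q ∈ Ico Q (2 * Q), (#{n ∈ Ico X (X + M) | B n ∧ (q : ℤ) ∣ n - a q} : ℝ) ≤
        η * (M * 2 ^ J / Q + 2 ^ T) + (if 2 ^ J ∣ q then (M / Q + 1 : ℝ) else 0) := by
      intro q hq
      rw [mem_Ico] at hq
      have hq1 : (0 : ℝ) < q := by exact_mod_cast (by omega : 0 < q)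
      have hQq : (Q : ℝ) ≤ q := by exact_mod_cast hq.1
      split_ifs with h5
      · have h6 := card_class X M (q := q) (by omega) (a q)
        rw [abs_le] at h6
        have h7 : (#{n ∈ Ico X (X + M) | B n ∧ (q : ℤ) ∣ n - a q} : ℝ) ≤ (#{n ∈ Ico X (X + M) | (q : ℤ) ∣ n - a q} : ℝ) := by
          have : #{n ∈ Ico X (X + M) | B n ∧ (q : ℤ) ∣ n - a q} ≤ #{n ∈ Ico X (X + M) | (q : ℤ) ∣ n - a q} := by
            apply card_le_card
            intro n hn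
            rw [mem_filter] at hn ⊢
            exact ⟨hn.1, hn.2.2⟩
          exact_mod_cast this
        have h8 : (M : ℝ) / q ≤ M / Q := div_le_div_of_nonneg_left (by positivity) hQ1 hQq
        have h9 : 0 ≤ η * (M * 2 ^ J / Q + 2 ^ T : ℝ) := by positivity
        linarith [h6.2]
      · have h6 := bad_class hper hcount X M (q := q) (by omega) (a q)
        have h7 : (Nat.gcd (2 ^ T) q : ℝ) ≤ 2 ^ J := by exact_mod_cast gcd_le h5
        rw [add_zero]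
        refine h6.trans (mul_le_mul_of_nonneg_left ?_ hη)
        have h8 : (M : ℝ) * (Nat.gcd (2 ^ T) q) / q ≤ M * 2 ^ J / Q := by
          rw [div_le_div_iff₀ hq1 hQ1]
          have h9 : (M : ℝ) * (Nat.gcd (2 ^ T) q) ≤ M * 2 ^ J := mul_le_mul_of_nonneg_left h7 (by positivity)
          exact mul_le_mul h9 hQq hQ1.le (by positivity)
        linarith
    refine (sum_le_sum h4).trans ?_
    rw [sum_add_distrib, sum_const, Nat.card_Ico, nsmul_eq_mul, e1, ← sum_filter, sum_const, nsmul_eq_mul]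
    have h5 : (Q : ℝ) * (η * (M * 2 ^ J / Q + 2 ^ T)) = η * (M * 2 ^ J + Q * 2 ^ T) := by field_simp
    have h6 := count_mult (Q := Q) (d := 2 ^ J) Nat.one_le_two_pow
    push_cast at h6
    have h7 : (#{q ∈ Ico Q (2 * Q) | 2 ^ J ∣ q} : ℝ) * (M / Q + 1) ≤ 3 * (M + Q) / 2 ^ J := by
      calc (#{q ∈ Ico Q (2 * Q) | 2 ^ J ∣ q} : ℝ) * (M / Q + 1) ≤ (3 * Q / 2 ^ J) * (M / Q + 1) :=
            mul_le_mul_of_nonneg_right h6 (by positivity)
        _ = 3 * (M + Q) / 2 ^ J := by field_simp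
    rw [h5]
    linarith
  linarith

theorem wt_window {Q : ℕ} (hQ : 1 ≤ Q) {e : ℕ → ℝ} (he : ∀ q, |e q| ≤ 1) (a : ℕ → ℤ) (Y : ℤ) (H : ℕ) :
    ∑ n ∈ Ico Y (Y + H), |wt (Ico Q (2 * Q)) e a n| ≤ 2 * H + Q := by
  have hQ1 : (0 : ℝ) < Q := by exact_mod_cast hQ
  calc ∑ n ∈ Ico Y (Y + H), |wt (Ico Q (2 * Q)) e a n|
      ≤ ∑ n ∈ Ico Y (Y + H), ∑ q ∈ Ico Q (2 * Q), (ind q (a q) n + 1 / q) :=
        sum_le_sum fun n _ => wt_abs_le he a n
    _ = ∑ q ∈ Ico Q (2 * Q), ∑ n ∈ Ico Y (Y + H), (ind q (a q) n + 1 / q) := sum_comm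
    _ ≤ ∑ q ∈ Ico Q (2 * Q), (2 * (H / Q) + 1 : ℝ) := by
        apply sum_le_sum
        intro q hq
        rw [mem_Ico] at hq
        have hq1 : (0 : ℝ) < q := by exact_mod_cast (by omega : 0 < q)
        have hQq : (Q : ℝ) ≤ q := by exact_mod_cast hq.1
        have h := sum_ind Y H (q := q) (by omega) (a q)
        rw [abs_le] at h
        rw [sum_add_distrib, sum_const, Int.card_Ico, nsmul_eq_mul]
        have h1 : (((Y + H - Y).toNat : ℕ) : ℝ) = H := by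
          rw [show Y + H - Y = (H : ℤ) by ring, Int.toNat_natCast]
        rw [h1]
        have h8 : (H : ℝ) / q ≤ H / Q := div_le_div_of_nonneg_left (by positivity) hQ1 hQq
        have h9 : (H : ℝ) * (1 / q) = H / q := by ring
        rw [h9]
        linarith [h.2]
    _ = 2 * H + Q := by
        rw [sum_const, Nat.card_Ico, nsmul_eq_mul, show 2 * Q - Q = Q by omega]
        field_simp

open Classical in
/-- **The finite form.** -/
theorem core {B : ℤ → Prop} {T : ℕ} (hper : ∀ y k : ℤ, B (y + k * 2 ^ T) ↔ B y) {η : ℝ} (hη : 0 ≤ η)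
    (hcount : (#{c ∈ range (2 ^ T) | B ((c : ℕ) : ℤ)} : ℝ) ≤ η * 2 ^ T) (M J : ℕ) {H Q : ℕ} (hH : 1 ≤ H)
    (hQ : 1 ≤ Q) {e : ℕ → ℝ} (he : ∀ q, |e q| ≤ 1) (a : ℕ → ℤ) {F : ℤ → ℝ} (hF : ∀ n, 0 ≤ F n ∧ F n ≤ 1)
    (hB : ∀ n : ℤ, 1 ≤ n → ¬ B n → ∀ i : ℤ, 0 ≤ i → i < H → F (n + i) = F n) :
    |∑ n ∈ Ico (1 : ℤ) (1 + M), wt (Ico Q (2 * Q)) e a n * F n| ≤
      η * (M * 2 ^ J + Q * 2 ^ T) + 3 * (M + Q) / 2 ^ J + η * (M + 2 ^ T) + 2 * (2 * H + Q) +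
      √ (9 * H * (1 + Real.log (2 * Q))) * √ (6 * (M + (2 * Q) ^ 2) * M) / H := by
  have hH1 : (0 : ℝ) < H := by exact_mod_cast hH
  have h1 := main 1 M hH (w := wt (Ico Q (2 * Q)) e a) hF (Bad := B) (by
    intro n hn hb i hi0 hi
    rw [mem_Ico] at hn
    exact hB n hn.1 hb i hi0 hi)
  have h2 := bad_sum hper hη hcount 1 M J hQ he a
  have h3 := wt_window hQ he a (1 - H) H
  have h4 := wt_window hQ he a (1 + M - H) H
  rw [show (1 : ℤ) - H + H = 1 by ring] at h3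
  rw [show (1 : ℤ) + M - H + H = 1 + M by ring] at h4
  have h5 := div_le_div_of_nonneg_right (four hQ H M he a hF) hH1.le
  linarith

open Classical in
/-- **The finite form, for all the moduli.** -/
theorem core_abs {B : ℤ → Prop} {T : ℕ} (hper : ∀ y k : ℤ, B (y + k * 2 ^ T) ↔ B y) {η : ℝ} (hη : 0 ≤ η)
    (hcount : (#{c ∈ range (2 ^ T) | B ((c : ℕ) : ℤ)} : ℝ) ≤ η * 2 ^ T) (M J : ℕ) {H Q : ℕ} (hH : 1 ≤ H)
    (hQ : 1 ≤ Q) (a : ℕ → ℤ) {F : ℤ → ℝ} (hF : ∀ n, 0 ≤ F n ∧ F n ≤ 1)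
    (hB : ∀ n : ℤ, 1 ≤ n → ¬ B n → ∀ i : ℤ, 0 ≤ i → i < H → F (n + i) = F n) :
    ∑ q ∈ Ico Q (2 * Q), |∑ n ∈ Ico (1 : ℤ) (1 + M), bal q (a q) n * F n| ≤
      η * (M * 2 ^ J + Q * 2 ^ T) + 3 * (M + Q) / 2 ^ J + η * (M + 2 ^ T) + 2 * (2 * H + Q) +
      √ (9 * H * (1 + Real.log (2 * Q))) * √ (6 * (M + (2 * Q) ^ 2) * M) / H := by
  set e : ℕ → ℝ := fun q => SignType.sign (∑ n ∈ Ico (1 : ℤ) (1 + M), bal q (a q) n * F n) with he
  have he1 : ∀ q, |e q| ≤ 1 := by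
    intro q
    simp only [he]
    rcases SignType.sign (∑ n ∈ Ico (1 : ℤ) (1 + M), bal q (a q) n * F n) with _ | _ | _ <;> simp
  have h1 := core hper hη hcount M J hH hQ he1 a hF hB
  have h2 : ∑ n ∈ Ico (1 : ℤ) (1 + M), wt (Ico Q (2 * Q)) e a n * F n =
      ∑ q ∈ Ico Q (2 * Q), |∑ n ∈ Ico (1 : ℤ) (1 + M), bal q (a q) n * F n| := by
    unfold wt
    simp_rw [sum_mul]
    rw [sum_comm]
    apply sum_congr rfl
    intro q _
    rw [← sign_mul_self (∑ n ∈ Ico (1 : ℤ) (1 + M), bal q (a q) n * F n), mul_sum]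
    apply sum_congr rfl
    intro n _
    simp only [he]
    ring
  rw [h2] at h1
  exact (le_abs_self _).trans h1

end Pool.Agent.Q37.BV
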