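import Pool.Agent.Q37.BV.Bdh

/-! The variance over all the residue classes: a bound linear in the number of elements. -/

set_option autoImplicit false

namespace Pool.Agent.Q37.BV

open Finset Filter Topology Pool.Agent.Helper112 Pool.Agent.Y967.CM

/-- the large sieve in dyadic form -/
theorem tail_lin {A : ℕ → ℝ} (hA0 : ∀ d, 0 ≤ A d) {M : ℕ} {W : ℝ} (hW : 0 ≤ W)
    (hA : ∀ D : ℕ, ∑ d ∈ Icc 1 D, A d ≤ 6 * (M + (D : ℝ) ^ 2) * W) (J R : ℕ) (hR : 1 ≤ R) :
    ∑ d ∈ Icc (2 ^ J) R, A d / d ≤ 12 * (M * W) / 2 ^ J + 48 * W * R := by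
  have hsub : Icc (2 ^ J) R ⊆ (Ico J (Nat.log 2 R + 1)).biUnion (fun i => Ico (2 ^ i) (2 * 2 ^ i)) := by
    intro q hq
    rw [mem_Icc] at hq
    have hq1 : 1 ≤ q := Nat.one_le_two_pow.trans hq.1
    rw [mem_biUnion]
    refine ⟨Nat.log 2 q, ?_, ?_⟩
    · rw [mem_Ico]
      refine ⟨?_, Nat.lt_succ_of_le (Nat.log_mono_right hq.2)⟩
      exact Nat.le_log_of_pow_le (by norm_num) hq.1
    · rw [mem_Ico]
      refine ⟨Nat.pow_log_le_self 2 (by omega), ?_⟩
      have := Nat.lt_pow_succ_log_self (b := 2) (by norm_num) q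
      rwa [pow_succ, mul_comm] at this
  have h1 : ∑ d ∈ Icc (2 ^ J) R, A d / d ≤
      ∑ i ∈ Ico J (Nat.log 2 R + 1), ∑ d ∈ Ico (2 ^ i) (2 * 2 ^ i), A d / d := by
    refine (sum_le_sum_of_subset_of_nonneg hsub fun d _ _ => div_nonneg (hA0 d) (Nat.cast_nonneg _)).trans ?_
    apply le_of_eq
    apply sum_biUnion
    intro i _ j _ hij
    simp only [Function.onFun]
    rw [disjoint_left]
    intro q h1 h2
    rw [mem_Ico] at h1 h2
    rcases lt_or_gt_of_ne hij with h | h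
    · have := Nat.pow_le_pow_right (show 0 < 2 by norm_num) (show i + 1 ≤ j by omega)
      rw [pow_succ] at this
      omega
    · have := Nat.pow_le_pow_right (show 0 < 2 by norm_num) (show j + 1 ≤ i by omega)
      rw [pow_succ] at this
      omega
  have h2 : ∀ i : ℕ, ∑ d ∈ Ico (2 ^ i) (2 * 2 ^ i), A d / d ≤ 6 * (M * W) * (1 / 2) ^ i + 24 * W * 2 ^ i := by
    intro i
    have h2i : (0 : ℝ) < 2 ^ i := by positivity
    calc ∑ d ∈ Ico (2 ^ i) (2 * 2 ^ i), A d / d ≤ ∑ d ∈ Ico (2 ^ i) (2 * 2 ^ i), A d / 2 ^ i := by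
          apply sum_le_sum
          intro d hd
          rw [mem_Ico] at hd
          apply div_le_div_of_nonneg_left (hA0 d) h2i
          exact_mod_cast hd.1
      _ = (∑ d ∈ Ico (2 ^ i) (2 * 2 ^ i), A d) / 2 ^ i := by rw [sum_div]
      _ ≤ (∑ d ∈ Icc 1 (2 * 2 ^ i), A d) / 2 ^ i := by
          apply div_le_div_of_nonneg_right _ h2i.le
          apply sum_le_sum_of_subset_of_nonneg
          · intro d hd
            rw [mem_Ico] at hd
            rw [mem_Icc]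
            have := Nat.one_le_two_pow (n := i)
            omega
          · intro _ _ _; exact hA0 _
      _ ≤ (6 * (M + ((2 * 2 ^ i : ℕ) : ℝ) ^ 2) * W) / 2 ^ i :=
          div_le_div_of_nonneg_right (hA _) h2i.le
      _ = 6 * (M * W) * (1 / 2) ^ i + 24 * W * 2 ^ i := by
          rw [one_div, inv_pow]
          push_cast
          field_simp
          ring
  refine h1.trans ((sum_le_sum fun i _ => h2 i).trans ?_)
  rw [sum_add_distrib, ← mul_sum, ← mul_sum]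
  have h3 : ∑ i ∈ Ico J (Nat.log 2 R + 1), (1 / 2 : ℝ) ^ i ≤ 2 / 2 ^ J := by
    have : ∀ n : ℕ, ∑ i ∈ Ico J n, (1 / 2 : ℝ) ^ i ≤ 2 / 2 ^ J := by
      intro n
      rcases Nat.lt_or_ge n J with h | h
      · rw [Ico_eq_empty_of_le h.le, sum_empty]; positivity
      · have e := geom_sum_Ico (x := (1 / 2 : ℝ)) (by norm_num) h
        rw [e]
        have h4 : (0 : ℝ) < (1 / 2) ^ n := by positivity
        have h5 : ((1 / 2 : ℝ)) ^ J = 1 / 2 ^ J := by rw [one_div, inv_pow, one_div]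
        rw [show ((1 / 2 : ℝ) ^ n - (1 / 2) ^ J) / (1 / 2 - 1) = 2 * (1 / 2) ^ J - 2 * (1 / 2) ^ n by ring, h5]
        have : (2 : ℝ) / 2 ^ J = 2 * (1 / 2 ^ J) := by ring
        rw [this]
        linarith
    exact this _
  have h4 : ∑ i ∈ Ico J (Nat.log 2 R + 1), (2 : ℝ) ^ i ≤ 2 * R := by
    calc ∑ i ∈ Ico J (Nat.log 2 R + 1), (2 : ℝ) ^ i ≤ ∑ i ∈ range (Nat.log 2 R + 1), (2 : ℝ) ^ i := by
          apply sum_le_sum_of_subset_of_nonneg
          · intro i hi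
            rw [mem_Ico] at hi
            rw [mem_range]
            exact hi.2
          · intro _ _ _; positivity
      _ = 2 ^ (Nat.log 2 R + 1) - 1 := by
          rw [geom_sum_eq (by norm_num)]; norm_num
      _ ≤ 2 * R := by
          have : ((2 ^ Nat.log 2 R : ℕ) : ℝ) ≤ R := by exact_mod_cast Nat.pow_log_le_self 2 (by omega)
          push_cast at this
          rw [pow_succ]
          linarith
  have hM : (0 : ℝ) ≤ M := Nat.cast_nonneg _
  calc 6 * (M * W) * ∑ i ∈ Ico J (Nat.log 2 R + 1), (1 / 2 : ℝ) ^ i +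
      24 * W * ∑ i ∈ Ico J (Nat.log 2 R + 1), (2 : ℝ) ^ i
      ≤ 6 * (M * W) * (2 / 2 ^ J) + 24 * W * (2 * R) :=
        add_le_add (mul_le_mul_of_nonneg_left h3 (by positivity)) (mul_le_mul_of_nonneg_left h4 (by positivity))
    _ = 12 * (M * W) / 2 ^ J + 48 * W * R := by ring

theorem bdh_lin {ε : ℝ} (hε : 0 < ε) : ∃ N₀ : ℕ, ∀ s : ℤ, s = 1 ∨ s = -1 → ∀ F : ℤ → ℝ, Win s F →
    ∀ N : ℕ, N₀ ≤ N → ∀ Q : ℕ, 1 ≤ Q →
      ∑ q ∈ Ico Q (2 * Q), ∑ a ∈ range q, (dF F N q ((a : ℕ) : ℤ)) ^ 2 ≤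
        (ε * N + 288 * Q) * ∑ n ∈ Icc 1 N, F (n : ℤ) := by
  obtain ⟨J, hJ⟩ := pow_unbounded_of_one_lt (72 / ε) (show (1 : ℝ) < 2 by norm_num)
  set ε' : ℝ := ε / (6 * (2 ^ J) ^ 2) with hε'
  have hε'0 : 0 < ε' := by positivity
  obtain ⟨N₁, h1⟩ := level_gen (show (0 : ℝ) < 1 / 4 by norm_num) hε'0
  refine ⟨max N₁ (4 ^ J), fun s hs F hF N hN Q hQ => ?_⟩
  have hN1 : N₁ ≤ N := (le_max_left _ _).trans hN
  have hN2 : 4 ^ J ≤ N := (le_max_right _ _).trans hN
  have hN0 : (0 : ℝ) ≤ N := Nat.cast_nonneg _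
  have hlev : (2 : ℝ) ^ J ≤ lev (1 / 4) N := by
    have g1 : (2 : ℝ) ^ J ≤ √ (N : ℝ) := by
      apply Real.le_sqrt_of_sq_le
      rw [← pow_mul, mul_comm, pow_mul]
      norm_num
      exact_mod_cast hN2
    unfold lev
    have g2 : (1 : ℝ) ≤ Real.exp (Real.log N ^ (1 / 2 - 1 / 4 : ℝ)) :=
      Real.one_le_exp (Real.rpow_nonneg (Real.log_natCast_nonneg N) _)
    calc (2 : ℝ) ^ J ≤ √ (N : ℝ) := g1
      _ = √ (N : ℝ) * 1 := (mul_one _).symm
      _ ≤ _ := mul_le_mul_of_nonneg_left g2 (Real.sqrt_nonneg _)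
  set W : ℝ := ∑ n ∈ Icc 1 N, F (n : ℤ) with hW
  have hW0 : 0 ≤ W := sum_nonneg fun n _ => (hF.1 n).1
  set A : ℕ → ℝ := fun d => ∑ h ∈ Ico 1 d with h.Coprime d, ‖FF N F ((h : ℝ) / d)‖ ^ 2 with hA
  have hA0 : ∀ d, 0 ≤ A d := fun d => sum_nonneg fun _ _ => by positivity
  have hls : ∀ D : ℕ, ∑ d ∈ Icc 1 D, A d ≤ 6 * (N + (D : ℝ) ^ 2) * W := by
    intro D
    have g1 := additive_large_sieve N D (fun n => ((F n : ℝ) : ℂ))
    calc ∑ d ∈ Icc 1 D, A d ≤ ∑ f ∈ Icc 1 D, ∑ a ∈ range f with a.Coprime f,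
          ‖∑ n ∈ Icc 1 N, ((F n : ℝ) : ℂ) * ee (n * a / f)‖ ^ 2 := by
          apply sum_le_sum
          intro d _
          simp only [hA]
          have g2 : ∀ h : ℕ, ‖FF N F ((h : ℝ) / d)‖ ^ 2 = ‖∑ n ∈ Icc 1 N, ((F n : ℝ) : ℂ) * ee (n * h / d)‖ ^ 2 := by
            intro h
            unfold FF
            congr 2
            apply sum_congr rfl
            intro n _
            rw [mul_div_assoc]
          rw [sum_congr rfl (fun h _ => g2 h)]
          apply sum_le_sum_of_subset_of_nonneg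
          · intro h hh
            rw [mem_filter, mem_Ico] at hh
            rw [mem_filter, mem_range]
            exact ⟨hh.1.2, hh.2⟩
          · intro _ _ _; positivity
      _ ≤ 6 * (N + (D : ℝ) ^ 2) * ∑ n ∈ Icc 1 N, ‖((F n : ℝ) : ℂ)‖ ^ 2 := g1
      _ ≤ 6 * (N + (D : ℝ) ^ 2) * W := by
          apply mul_le_mul_of_nonneg_left _ (by positivity)
          apply sum_le_sum
          intro n _
          rw [Complex.norm_real, Real.norm_eq_abs, abs_of_nonneg (hF.1 n).1]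
          have := hF.1 n
          nlinarith [this.1, this.2]
  have s1 : ∑ q ∈ Ico Q (2 * Q), ∑ a ∈ range q, (dF F N q ((a : ℕ) : ℤ)) ^ 2 ≤
      ∑ d ∈ Icc 2 (2 * Q), 3 / (d : ℝ) * A d := by
    refine le_trans (le_of_eq ?_) (sum_frac hQ (g := fun x => ‖FF N F x‖ ^ 2) (fun x => by positivity))
    apply sum_congr rfl
    intro q hq
    rw [mem_Ico] at hq
    exact class_parseval (by omega) F N
  have s2 : ∑ d ∈ Icc 2 (2 * Q), 3 / (d : ℝ) * A d ≤
      3 * ∑ d ∈ Icc 1 (2 ^ J), A d / d + 3 * ∑ d ∈ Icc (2 ^ J) (2 * Q), A d / d := by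
    have g0 : ∀ d : ℕ, 0 ≤ A d / d := fun d => div_nonneg (hA0 d) (Nat.cast_nonneg _)
    have g1 : ∑ d ∈ Icc 2 (2 * Q), 3 / (d : ℝ) * A d = 3 * ∑ d ∈ Icc 2 (2 * Q), A d / d := by
      rw [mul_sum]
      apply sum_congr rfl
      intro d _
      ring
    have g2 : Icc 2 (2 * Q) ⊆ Icc 1 (2 ^ J) ∪ Icc (2 ^ J) (2 * Q) := by
      intro d hd
      rw [mem_Icc] at hd
      rw [mem_union, mem_Icc, mem_Icc]
      omega
    have g3 := sum_le_sum_of_subset_of_nonneg (f := fun d : ℕ => A d / d) g2 (fun d _ _ => g0 d)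
    have g4 := sum_union_inter (f := fun d : ℕ => A d / d) (s₁ := Icc 1 (2 ^ J)) (s₂ := Icc (2 ^ J) (2 * Q))
    have g5 : 0 ≤ ∑ d ∈ Icc 1 (2 ^ J) ∩ Icc (2 ^ J) (2 * Q), A d / d := sum_nonneg fun d _ => g0 d
    rw [g1]
    linarith
  have hFW : ∀ x : ℝ, ‖FF N F x‖ ≤ W := by
    intro x
    unfold FF
    refine (norm_sum_le _ _).trans ?_
    rw [hW]
    apply sum_le_sum
    intro n _
    rw [norm_mul, ls_norm_ee, mul_one, Complex.norm_real, Real.norm_eq_abs, abs_of_nonneg (hF.1 n).1]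
  have s3 : ∑ d ∈ Icc 1 (2 ^ J), A d / d ≤ (2 ^ J) ^ 2 * ε' * (N * W) := by
    calc ∑ d ∈ Icc 1 (2 ^ J), A d / d ≤ ∑ d ∈ Icc 1 (2 ^ J), (2 ^ J) * ε' * ((N : ℝ) * W) := by
          apply sum_le_sum
          intro d hd
          rw [mem_Icc] at hd
          have hd0 : (0 : ℝ) < d := by exact_mod_cast hd.1
          have hdJ : (d : ℝ) ≤ 2 ^ J := by exact_mod_cast hd.2
          rw [div_le_iff₀ hd0]
          have g1 : ∀ a : ℤ, |dF F N d a| ≤ ε' * N := by
            intro a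
            have g2 := h1 s hs F hF N hN1 d hd.1 (hdJ.trans hlev) N le_rfl (fun _ => a)
            refine le_trans ?_ g2
            exact single_le_sum (f := fun q => |dF F N q a|) (fun _ _ => abs_nonneg _) (mem_Ico.2 ⟨le_rfl, by omega⟩)
          calc A d ≤ ∑ h ∈ Ico 1 d, ‖FF N F ((h : ℝ) / d)‖ ^ 2 :=
                sum_le_sum_of_subset_of_nonneg (filter_subset _ _) fun _ _ _ => by positivity
            _ ≤ ∑ h ∈ Ico 1 d, (d * (ε' * N)) * W := by
                apply sum_le_sum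
                intro h hh
                rw [sq]
                exact mul_le_mul (FF_le hd.1 F N hh g1) (hFW _) (norm_nonneg _) (by positivity)
            _ = ((d - 1 : ℕ) : ℝ) * ((d * (ε' * N)) * W) := by
                rw [sum_const, Nat.card_Ico, nsmul_eq_mul]
            _ ≤ d * ((d * (ε' * N)) * W) := by
                apply mul_le_mul_of_nonneg_right _ (by positivity)
                exact_mod_cast Nat.sub_le d 1
            _ = (d * ε' * (N * W)) * d := by ring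
            _ ≤ ((2 ^ J) * ε' * ((N : ℝ) * W)) * d := by
                apply mul_le_mul_of_nonneg_right _ hd0.le
                apply mul_le_mul_of_nonneg_right _ (by positivity)
                exact mul_le_mul_of_nonneg_right hdJ hε'0.le
      _ = (2 ^ J) ^ 2 * ε' * (N * W) := by
          rw [sum_const, Nat.card_Icc, nsmul_eq_mul, Nat.add_sub_cancel]
          push_cast
          ring
  have s4 := tail_lin hA0 hW0 hls J (2 * Q) (by omega)
  have e1 : (2 ^ J) ^ 2 * ε' * (N * W) = ε / 6 * (N * W) := by rw [hε']; field_simp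
  have e2 : 12 * ((N : ℝ) * W) / 2 ^ J ≤ ε / 6 * (N * W) := by
    rw [div_lt_iff₀ hε] at hJ
    rw [div_le_iff₀ (by positivity)]
    have h2 : (72 : ℝ) * (N * W) ≤ (2 ^ J * ε) * (N * W) := mul_le_mul_of_nonneg_right hJ.le (by positivity)
    have h3 : ε / 6 * ((N : ℝ) * W) * 2 ^ J = ((2 ^ J * ε) * (N * W)) / 6 := by ring
    rw [h3]
    linarith
  push_cast at s4
  have e3 : (ε * N + 288 * Q) * W = ε * (N * W) + 288 * (Q * W) := by ring
  rw [e3]
  have e4 : 48 * W * (2 * (Q : ℝ)) = 96 * (Q * W) := by ring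
  rw [e4] at s4
  linarith

end Pool.Agent.Q37.BV
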