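import Mathlib

/-! Counting lemmas: integers of an interval in one or two residue classes. -/

set_option autoImplicit false

namespace Pool.Agent.Q37.BV

open Finset

/-- the indicator function of the class of `u` modulo `q` -/
noncomputable def ind (q : ℕ) (u n : ℤ) : ℝ := if (q : ℤ) ∣ n - u then 1 else 0

theorem ind_nonneg (q : ℕ) (u n : ℤ) : 0 ≤ ind q u n := by unfold ind; split_ifs <;> norm_num

theorem ind_le_one (q : ℕ) (u n : ℤ) : ind q u n ≤ 1 := by unfold ind; split_ifs <;> norm_num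

theorem ind_shift (q : ℕ) (u n i : ℤ) : ind q u (n - i) = ind q (u + i) n := by
  unfold ind
  rw [show n - i - u = n - (u + i) by ring]

theorem card_class (X : ℤ) (L : ℕ) {q : ℕ} (hq : 1 ≤ q) (u : ℤ) :
    |(#{m ∈ Ico X (X + L) | (q : ℤ) ∣ m - u} : ℝ) - L / q| ≤ 1 := by
  have hq0 : (0 : ℤ) < q := by exact_mod_cast hq
  have h1 := Int.Ico_filter_modEq_card (a := X) (b := X + L) (r := (q : ℤ)) hq0 u
  have h2 : ({m ∈ Ico X (X + L) | (q : ℤ) ∣ m - u} : Finset ℤ) = {m ∈ Ico X (X + L) | m ≡ u [ZMOD q]} := by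
    ext m
    simp only [mem_filter]
    rw [Int.modEq_comm, Int.modEq_iff_dvd]
  rw [h2]
  have h3 : ⌈((X : ℤ) - u : ℚ) / ((q : ℤ) : ℚ)⌉ ≤ ⌈((X + L : ℤ) - u : ℚ) / ((q : ℤ) : ℚ)⌉ := by
    apply Int.ceil_le_ceil
    apply div_le_div_of_nonneg_right _ (by positivity)
    push_cast
    have : (0 : ℚ) ≤ L := by positivity
    linarith
  rw [max_eq_left (by push_cast at h3 ⊢; linarith)] at h1
  have h4 : (#{m ∈ Ico X (X + L) | m ≡ u [ZMOD q]} : ℚ) =
      (⌈((X + L : ℤ) - u : ℚ) / ((q : ℤ) : ℚ)⌉ : ℚ) - ⌈((X : ℤ) - u : ℚ) / ((q : ℤ) : ℚ)⌉ := by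
    exact_mod_cast h1
  have hqQ : (0 : ℚ) < q := by exact_mod_cast hq
  have key : |(#{m ∈ Ico X (X + L) | m ≡ u [ZMOD q]} : ℚ) - L / q| ≤ 1 := by
    rw [h4]
    have e : ((X + L : ℤ) - u : ℚ) / ((q : ℤ) : ℚ) = ((X : ℤ) - u : ℚ) / ((q : ℤ) : ℚ) + L / q := by
      push_cast
      field_simp
      ring
    rw [e]
    have a1 := Int.ceil_lt_add_one (((X : ℤ) - u : ℚ) / ((q : ℤ) : ℚ) + L / q)
    have a2 := Int.le_ceil (((X : ℤ) - u : ℚ) / ((q : ℤ) : ℚ) + L / q)
    have a3 := Int.ceil_lt_add_one (((X : ℤ) - u : ℚ) / ((q : ℤ) : ℚ))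
    have a4 := Int.le_ceil (((X : ℤ) - u : ℚ) / ((q : ℤ) : ℚ))
    rw [abs_le]
    constructor <;> linarith
  have key2 : ((|(#{m ∈ Ico X (X + L) | m ≡ u [ZMOD q]} : ℚ) - L / q| : ℚ) : ℝ) ≤ 1 := by
    exact_mod_cast key
  push_cast at key2
  exact key2

theorem sum_ind (X : ℤ) (L : ℕ) {q : ℕ} (hq : 1 ≤ q) (u : ℤ) :
    |∑ m ∈ Ico X (X + L), ind q u m - L / q| ≤ 1 := by
  have h := card_class X L hq u
  have e : ∑ m ∈ Ico X (X + L), ind q u m = (#{m ∈ Ico X (X + L) | (q : ℤ) ∣ m - u} : ℝ) := by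
    unfold ind
    rw [card_filter]
    push_cast
    rfl
  rwa [e]

/-- two classes -/
theorem two_classes {q r : ℕ} (u v : ℤ) (hd : ((Nat.gcd q r : ℕ) : ℤ) ∣ u - v) :
    ∃ m₀ : ℤ, ∀ m : ℤ, ((q : ℤ) ∣ m - u ∧ (r : ℤ) ∣ m - v) ↔ ((Nat.lcm q r : ℕ) : ℤ) ∣ m - m₀ := by
  obtain ⟨k, hk⟩ := hd
  have hb := Nat.gcd_eq_gcd_ab q r
  set x := Nat.gcdA q r
  set y := Nat.gcdB q r
  have e : u - v = ((q : ℤ) * x + r * y) * k := by rw [hk, ← hb]
  refine ⟨u - q * x * k, fun m => ?_⟩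
  have h1 : (q : ℤ) ∣ m - u ↔ (q : ℤ) ∣ m - (u - q * x * k) := by
    constructor
    · intro h
      have : m - (u - q * x * k) = (m - u) + q * (x * k) := by ring
      rw [this]
      exact dvd_add h (dvd_mul_right _ _)
    · intro h
      have : m - u = (m - (u - q * x * k)) - q * (x * k) := by ring
      rw [this]
      exact dvd_sub h (dvd_mul_right _ _)
  have h2 : (r : ℤ) ∣ m - v ↔ (r : ℤ) ∣ m - (u - q * x * k) := by
    have e2 : u - q * x * k = v + r * (y * k) := by linear_combination e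
    rw [e2]
    constructor
    · intro h
      have : m - (v + r * (y * k)) = (m - v) - r * (y * k) := by ring
      rw [this]
      exact dvd_sub h (dvd_mul_right _ _)
    · intro h
      have : m - v = (m - (v + r * (y * k))) + r * (y * k) := by ring
      rw [this]
      exact dvd_add h (dvd_mul_right _ _)
  rw [h1, h2]
  constructor
  · rintro ⟨h3, h4⟩
    have h5 := Int.coe_lcm_dvd h3 h4
    have e3 : (Int.lcm (q : ℤ) (r : ℤ)) = Nat.lcm q r := by
      rw [Int.lcm_natCast_natCast]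
    rwa [e3] at h5
  · intro h
    exact ⟨(Int.natCast_dvd_natCast.2 (Nat.dvd_lcm_left q r)).trans h,
      (Int.natCast_dvd_natCast.2 (Nat.dvd_lcm_right q r)).trans h⟩

/-- compatibility of two classes -/
noncomputable def comp (q r : ℕ) (u v : ℤ) : ℝ := if ((Nat.gcd q r : ℕ) : ℤ) ∣ u - v then 1 else 0

theorem sum_ind_ind (X : ℤ) (L : ℕ) {q r : ℕ} (hq : 1 ≤ q) (hr : 1 ≤ r) (u v : ℤ) :
    |∑ m ∈ Ico X (X + L), ind q u m * ind r v m - L * (comp q r u v / Nat.lcm q r)| ≤ 1 := by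
  by_cases hd : ((Nat.gcd q r : ℕ) : ℤ) ∣ u - v
  · obtain ⟨m₀, hm⟩ := two_classes u v hd
    have h := sum_ind X L (q := Nat.lcm q r) (Nat.lcm_pos hq hr) m₀
    have e : ∑ m ∈ Ico X (X + L), ind q u m * ind r v m = ∑ m ∈ Ico X (X + L), ind (Nat.lcm q r) m₀ m := by
      apply sum_congr rfl
      intro m _
      have h1 := hm m
      unfold ind
      by_cases h2 : ((Nat.lcm q r : ℕ) : ℤ) ∣ m - m₀
      · obtain ⟨h3, h4⟩ := h1.2 h2
        rw [if_pos h3, if_pos h4, if_pos h2, one_mul]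
      · rw [if_neg h2]
        by_cases h3 : (q : ℤ) ∣ m - u
        · by_cases h4 : (r : ℤ) ∣ m - v
          · exact absurd (h1.1 ⟨h3, h4⟩) h2
          · rw [if_neg h4, mul_zero]
        · rw [if_neg h3, zero_mul]
    rw [e]
    unfold comp
    rw [if_pos hd, mul_one_div]
    exact h
  · have e : ∑ m ∈ Ico X (X + L), ind q u m * ind r v m = 0 := by
      apply sum_eq_zero
      intro m _
      unfold ind
      by_cases h3 : (q : ℤ) ∣ m - u
      · by_cases h4 : (r : ℤ) ∣ m - v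
        · exfalso
          apply hd
          have h5 : ((Nat.gcd q r : ℕ) : ℤ) ∣ m - u := (Int.natCast_dvd_natCast.2 (Nat.gcd_dvd_left q r)).trans h3
          have h6 : ((Nat.gcd q r : ℕ) : ℤ) ∣ m - v := (Int.natCast_dvd_natCast.2 (Nat.gcd_dvd_right q r)).trans h4
          have := dvd_sub h6 h5
          rwa [show m - v - (m - u) = u - v by ring] at this
        · rw [if_neg h4, mul_zero]
      · rw [if_neg h3, zero_mul]
    rw [e]
    unfold comp
    rw [if_neg hd]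
    norm_num

/-- the balanced indicator function of a class -/
noncomputable def bal (q : ℕ) (u n : ℤ) : ℝ := ind q u n - 1 / q

theorem bal_shift (q : ℕ) (u n i : ℤ) : bal q u (n - i) = bal q (u + i) n := by
  unfold bal; rw [ind_shift]

end Pool.Agent.Q37.BV
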