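import Pool.Agent.Helper112.LS
import Pool.Agent.Q37.BV.Abs

/-! Window sums of balanced indicator functions of classes, through the large sieve. -/

set_option autoImplicit false

namespace Pool.Agent.Q37.BV

open Finset Pool.Agent.Helper112

theorem ee_sum {q : ℕ} (hq : 1 ≤ q) (t : ℤ) :
    ∑ k ∈ range q, ee (t * k / q) = if (q : ℤ) ∣ t then (q : ℂ) else 0 := by
  have hq1 : (0 : ℝ) < q := by exact_mod_cast hq
  have hq0 : (q : ℝ) ≠ 0 := hq1.ne'
  have e : ∀ k : ℕ, ee (t * k / q) = ee ((t : ℝ) / q) ^ k := by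
    intro k
    rw [← ls_ee_nat_mul]
    congr 1
    ring
  simp_rw [e]
  split_ifs with h
  · obtain ⟨c, hc⟩ := h
    have h1 : ee ((t : ℝ) / q) = 1 := by
      have : (t : ℝ) / q = (c : ℤ) := by
        rw [hc]; push_cast; field_simp
      rw [this, ls_ee_int]
    rw [h1]; simp
  · have hne : ee ((t : ℝ) / q) ≠ 1 := by
      intro h1
      obtain ⟨n, hn⟩ := ls_ee_eq_one h1
      apply h
      refine ⟨n, ?_⟩
      rw [div_eq_iff hq0] at hn
      have h2 : (t : ℝ) = ((n * q : ℤ) : ℝ) := by push_cast; exact hn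
      have h3 : t = n * q := by exact_mod_cast h2
      rw [h3]; ring
    rw [geom_sum_eq hne]
    have h1 : ee ((t : ℝ) / q) ^ q = 1 := by
      rw [← ls_ee_nat_mul]
      have : (q : ℝ) * ((t : ℝ) / q) = (t : ℤ) := by field_simp
      rw [this, ls_ee_int]
    rw [h1]; simp

theorem bal_eq {q : ℕ} (hq : 1 ≤ q) (u n : ℤ) :
    ((bal q u n : ℝ) : ℂ) = ∑ k ∈ Ico 1 q, (1 / q : ℂ) * ee (((n - u : ℤ) : ℝ) * k / q) := by
  have hq1 : (q : ℂ) ≠ 0 := by exact_mod_cast (show q ≠ 0 by omega)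
  have h := ee_sum hq (n - u)
  rw [range_eq_Ico, sum_eq_sum_Ico_succ_bot (by omega)] at h
  simp only [Nat.cast_zero, mul_zero, zero_div, ls_ee_zero, zero_add] at h
  rw [← mul_sum]
  unfold bal ind
  split_ifs at h ⊢ with hd
  · rw [show ∑ k ∈ Ico 1 q, ee (((n - u : ℤ) : ℝ) * k / q) = (q : ℂ) - 1 by rw [← h]; ring]
    push_cast
    field_simp
  · rw [show ∑ k ∈ Ico 1 q, ee (((n - u : ℤ) : ℝ) * k / q) = -1 by linear_combination h]
    push_cast
    ring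

/-- the exponential sum of `F` -/
noncomputable def FF (M : ℕ) (F : ℤ → ℝ) (θ : ℝ) : ℂ := ∑ n ∈ Icc 1 M, ((F n : ℝ) : ℂ) * ee (n * θ)

theorem sum_Ico_nat {A : Type*} [AddCommMonoid A] (M : ℕ) (g : ℤ → A) :
    ∑ m ∈ Ico (1 : ℤ) (1 + M), g m = ∑ n ∈ Icc 1 M, g ((n : ℕ) : ℤ) := by
  symm
  apply sum_bij (fun (n : ℕ) _ => (n : ℤ))
  · intro n hn
    rw [mem_Icc] at hn
    rw [mem_Ico]
    omega
  · intro a _ b _ h
    exact_mod_cast h
  · intro m hm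
    rw [mem_Ico] at hm
    refine ⟨m.toNat, ?_, ?_⟩
    · rw [mem_Icc]; omega
    · omega
  · intro n _; rfl

theorem sum_range_int {A : Type*} [AddCommMonoid A] (H : ℕ) (g : ℤ → A) :
    ∑ m ∈ Ico (0 : ℤ) (0 + H), g m = ∑ n ∈ range H, g ((n : ℕ) : ℤ) := by
  symm
  apply sum_bij (fun (n : ℕ) _ => (n : ℤ))
  · intro n hn
    rw [mem_range] at hn
    rw [mem_Ico]
    omega
  · intro a _ b _ h
    exact_mod_cast h
  · intro m hm
    rw [mem_Ico] at hm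
    refine ⟨m.toNat, ?_, ?_⟩
    · rw [mem_range]; omega
    · omega
  · intro n _; rfl

theorem win_four {q : ℕ} (hq : 1 ≤ q) (H M : ℕ) (u : ℤ) (F : ℤ → ℝ) :
    ((∑ m ∈ Ico (1 : ℤ) (1 + M), (∑ i ∈ range H, bal q u (m - i)) * F m : ℝ) : ℂ) =
      ∑ k ∈ Ico 1 q, (1 / q : ℂ) * (ee (-(u * k / q)) * lsD H (-((k : ℝ) / q))) * FF M F ((k : ℝ) / q) := by
  rw [sum_Ico_nat]
  push_cast
  have e1 : ∀ n ∈ Icc 1 M, (∑ i ∈ range H, ((bal q u ((n : ℤ) - i) : ℝ) : ℂ)) * ((F n : ℝ) : ℂ) =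
      ∑ k ∈ Ico 1 q, (1 / q : ℂ) * (ee (-(u * k / q)) * lsD H (-((k : ℝ) / q))) *
        (((F n : ℝ) : ℂ) * ee (n * ((k : ℝ) / q))) := by
    intro n _
    simp_rw [bal_eq hq]
    rw [sum_comm, sum_mul]
    apply sum_congr rfl
    intro k _
    unfold lsD
    rw [mul_sum, mul_sum, sum_mul, sum_mul]
    apply sum_congr rfl
    intro i _
    have : ee ((((n : ℤ) - i - u : ℤ) : ℝ) * k / q) =
        ee (-(u * k / q)) * ee (i * (-((k : ℝ) / q))) * ee (n * ((k : ℝ) / q)) := by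
      rw [← ls_ee_add, ← ls_ee_add]
      congr 1
      push_cast
      ring
    rw [this]
    ring
  rw [sum_congr rfl e1, sum_comm]
  apply sum_congr rfl
  intro k _
  unfold FF
  rw [mul_sum]

theorem win_le {q : ℕ} (hq : 1 ≤ q) (H M : ℕ) (u : ℤ) (F : ℤ → ℝ) :
    |∑ m ∈ Ico (1 : ℤ) (1 + M), (∑ i ∈ range H, bal q u (m - i)) * F m| ≤
      1 / q * ∑ k ∈ Ico 1 q, ‖lsD H (-((k : ℝ) / q))‖ * ‖FF M F ((k : ℝ) / q)‖ := by
  have h := congrArg norm (win_four hq H M u F)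
  rw [Complex.norm_real, Real.norm_eq_abs] at h
  rw [h, mul_sum]
  refine (norm_sum_le _ _).trans (sum_le_sum fun k _ => ?_)
  rw [norm_mul, norm_mul, norm_mul, ls_norm_ee, one_mul, norm_div, norm_one, Complex.norm_natCast, mul_assoc]

/-- a sum over a residue class representatives -/
theorem sum_ind_range (H : ℕ) {d : ℕ} (hd : 1 ≤ d) (u : ℤ) :
    ∑ j ∈ range H, ind d u ((j : ℕ) : ℤ) ≤ H / d + 1 := by
  have h := sum_ind 0 H hd u
  rw [sum_range_int, abs_le] at h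
  linarith [h.2]

theorem parseval (H : ℕ) {d : ℕ} (hd : 1 ≤ d) :
    ∑ h ∈ Ico 1 d, ‖lsD H (-((h : ℝ) / d))‖ ^ 2 ≤ d * H := by
  have hd1 : (0 : ℝ) < d := by exact_mod_cast hd
  have e1 : ∀ h : ℕ, ((‖lsD H (-((h : ℝ) / d))‖ ^ 2 : ℝ) : ℂ) =
      ∑ i ∈ range H, ∑ j ∈ range H, ee (((((j : ℕ) : ℤ) - ((i : ℕ) : ℤ) : ℤ) : ℝ) * h / d) := by
    intro h
    rw [Complex.ofReal_pow, ← Complex.mul_conj']
    unfold lsD
    rw [map_sum, sum_mul_sum]
    apply sum_congr rfl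
    intro i _
    apply sum_congr rfl
    intro j _
    rw [ls_conj_ee, ← ls_ee_add]
    congr 1
    push_cast
    ring
  have e2 : ∑ h ∈ range d, ‖lsD H (-((h : ℝ) / d))‖ ^ 2 =
      ∑ i ∈ range H, ∑ j ∈ range H, d * ind d ((i : ℕ) : ℤ) ((j : ℕ) : ℤ) := by
    have : ((∑ h ∈ range d, ‖lsD H (-((h : ℝ) / d))‖ ^ 2 : ℝ) : ℂ) =
        ((∑ i ∈ range H, ∑ j ∈ range H, d * ind d ((i : ℕ) : ℤ) ((j : ℕ) : ℤ) : ℝ) : ℂ) := by
      rw [Complex.ofReal_sum, sum_congr rfl (fun h _ => e1 h), sum_comm]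
      rw [Complex.ofReal_sum]
      apply sum_congr rfl
      intro i _
      rw [sum_comm, Complex.ofReal_sum]
      apply sum_congr rfl
      intro j _
      rw [ee_sum hd]
      unfold ind
      split_ifs <;> simp
    exact_mod_cast this
  have e3 : ∑ i ∈ range H, ∑ j ∈ range H, (d : ℝ) * ind d ((i : ℕ) : ℤ) ((j : ℕ) : ℤ) ≤ H ^ 2 + d * H := by
    calc ∑ i ∈ range H, ∑ j ∈ range H, (d : ℝ) * ind d ((i : ℕ) : ℤ) ((j : ℕ) : ℤ)
        ≤ ∑ i ∈ range H, (d : ℝ) * (H / d + 1) := by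
          apply sum_le_sum
          intro i _
          rw [← mul_sum]
          exact mul_le_mul_of_nonneg_left (sum_ind_range H hd _) hd1.le
      _ = H ^ 2 + d * H := by
          rw [sum_const, card_range, nsmul_eq_mul]
          field_simp
  rw [range_eq_Ico, sum_eq_sum_Ico_succ_bot (by omega)] at e2
  have e4 : ‖lsD H (-(((0 : ℕ) : ℝ) / d))‖ ^ 2 = (H : ℝ) ^ 2 := by
    unfold lsD
    simp [ls_ee_zero]
  rw [e4] at e2
  simp only [zero_add] at e2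
  linarith

/-- the number of multiples of `d` in `[Q, 2 Q)` -/
theorem count_mult {Q d : ℕ} (hd : 1 ≤ d) : (#{q ∈ Ico Q (2 * Q) | d ∣ q} : ℝ) ≤ 3 * Q / d := by
  have hd1 : (0 : ℝ) < d := by exact_mod_cast hd
  rcases Nat.lt_or_ge (2 * Q) (d + 1) with h | h
  · have : ({q ∈ Ico Q (2 * Q) | d ∣ q} : Finset ℕ) = ∅ := by
      rw [filter_eq_empty_iff]
      intro q hq hdq
      rw [mem_Ico] at hq
      have := Nat.le_of_dvd (by omega) hdq
      omega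
    rw [this, card_empty, Nat.cast_zero]
    positivity
  · have h1 := card_class (Q : ℤ) Q hd 0
    have h2 : #{q ∈ Ico Q (2 * Q) | d ∣ q} ≤ #{m ∈ Ico (Q : ℤ) (Q + Q) | (d : ℤ) ∣ m - 0} := by
      apply card_le_card_of_injOn (fun q : ℕ => (q : ℤ))
      · intro q hq
        rw [mem_coe, mem_filter, mem_Ico] at hq
        rw [mem_coe, mem_filter, mem_Ico]
        have g1 : (Q : ℤ) ≤ (q : ℤ) := by exact_mod_cast hq.1.1
        have g2 : (q : ℤ) < Q + Q := by have := hq.1.2; omega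
        have g3 : (d : ℤ) ∣ (q : ℤ) - 0 := by rw [sub_zero]; exact_mod_cast hq.2
        exact ⟨⟨g1, g2⟩, g3⟩
      · intro x _ y _ hxy
        have : (x : ℤ) = (y : ℤ) := hxy
        exact_mod_cast this
    have h2' : (#{q ∈ Ico Q (2 * Q) | d ∣ q} : ℝ) ≤ (#{m ∈ Ico (Q : ℤ) (Q + Q) | (d : ℤ) ∣ m - 0} : ℝ) := by
      exact_mod_cast h2
    rw [abs_le] at h1
    have h3 : (d : ℝ) ≤ 2 * Q := by exact_mod_cast (by omega : d ≤ 2 * Q)
    have h4 : (1 : ℝ) ≤ 2 * Q / d := by rw [le_div_iff₀ hd1]; linarith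
    have h5 : (3 * Q / d : ℝ) = Q / d + 2 * Q / d := by ring
    rw [h5]
    linarith [h1.2]

/-- fractions with denominator `q`, in reduced form -/
theorem regroup {q B : ℕ} (hq : 1 ≤ q) (hB : q ≤ B) {g : ℝ → ℝ} (hg : ∀ x, 0 ≤ g x) :
    ∑ k ∈ Ico 1 q, g ((k : ℝ) / q) ≤
      ∑ d ∈ Icc 2 B with d ∣ q, ∑ h ∈ Ico 1 d with h.Coprime d, g ((h : ℝ) / d) := by
  rw [sum_sigma']
  set φ : ℕ → (Σ _ : ℕ, ℕ) := fun k => ⟨q / Nat.gcd k q, k / Nat.gcd k q⟩ with hφ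
  have hgp : ∀ k : ℕ, 0 < Nat.gcd k q := fun k => Nat.gcd_pos_of_pos_right k hq
  have hval : ∀ k ∈ Ico 1 q, g ((k : ℝ) / q) = g (((φ k).2 : ℝ) / (φ k).1) := by
    intro k _
    congr 1
    simp only [hφ]
    have h1 : ((k / Nat.gcd k q : ℕ) : ℝ) = k / (Nat.gcd k q : ℝ) :=
      Nat.cast_div (Nat.gcd_dvd_left k q) (by have := hgp k; positivity)
    have h2 : ((q / Nat.gcd k q : ℕ) : ℝ) = q / (Nat.gcd k q : ℝ) :=
      Nat.cast_div (Nat.gcd_dvd_right k q) (by have := hgp k; positivity)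
    rw [h1, h2]
    have h3 : (Nat.gcd k q : ℝ) ≠ 0 := by have := hgp k; positivity
    have h4 : (q : ℝ) ≠ 0 := by positivity
    field_simp
  rw [sum_congr rfl hval]
  have hinj : Set.InjOn φ (Ico 1 q : Finset ℕ) := by
    intro x hx y hy hxy
    simp only [hφ, Sigma.mk.injEq, heq_eq_eq] at hxy
    obtain ⟨h1, h2⟩ := hxy
    have h3 : Nat.gcd x q = Nat.gcd y q := by
      have a1 := Nat.div_mul_cancel (Nat.gcd_dvd_right x q)
      have a2 := Nat.div_mul_cancel (Nat.gcd_dvd_right y q)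
      rw [h1] at a1
      have a3 : 0 < q / Nat.gcd y q := Nat.div_pos (Nat.le_of_dvd hq (Nat.gcd_dvd_right y q)) (hgp y)
      exact Nat.eq_of_mul_eq_mul_left a3 (a1.trans a2.symm)
    have a1 := Nat.div_mul_cancel (Nat.gcd_dvd_left x q)
    have a2 := Nat.div_mul_cancel (Nat.gcd_dvd_left y q)
    rw [h2, h3] at a1
    exact a1.symm.trans a2
  have himg : ∑ k ∈ Ico 1 q, g (((φ k).2 : ℝ) / (φ k).1) = ∑ x ∈ (Ico 1 q).image φ, g ((x.2 : ℝ) / x.1) := by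
    rw [sum_image hinj]
  rw [himg]
  apply sum_le_sum_of_subset_of_nonneg
  · intro x hx
    rw [mem_image] at hx
    obtain ⟨k, hk, rfl⟩ := hx
    rw [mem_Ico] at hk
    have hd1 := Nat.gcd_dvd_left k q
    have hd2 := Nat.gcd_dvd_right k q
    have hlt : Nat.gcd k q ≤ k := Nat.le_of_dvd (by omega) hd1
    have a1 : 1 ≤ k / Nat.gcd k q := Nat.div_pos hlt (hgp k)
    have a2 : k / Nat.gcd k q < q / Nat.gcd k q := Nat.div_lt_div_of_lt_of_dvd hd2 hk.2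
    simp only [hφ, mem_sigma, mem_filter, mem_Icc, mem_Ico]
    refine ⟨⟨⟨by omega, (Nat.div_le_self _ _).trans hB⟩, Nat.div_dvd_of_dvd hd2⟩, ⟨a1, a2⟩, ?_⟩
    exact Nat.coprime_div_gcd_div_gcd (hgp k)
  · intro _ _ _; exact hg _

theorem harm {B : ℕ} : ∑ d ∈ Icc 2 B, (1 : ℝ) / d ≤ 1 + Real.log B := by
  have h1 := harmonic_le_one_add_log B
  have h2 : ((harmonic B : ℚ) : ℝ) = ∑ d ∈ Icc 1 B, (1 : ℝ) / d := by
    rw [harmonic_eq_sum_Icc]
    push_cast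
    apply sum_congr rfl
    intro d _
    rw [one_div]
  rw [h2] at h1
  refine le_trans ?_ h1
  apply sum_le_sum_of_subset_of_nonneg
  · exact Icc_subset_Icc_left (by norm_num)
  · intro _ _ _; positivity

theorem four {Q : ℕ} (hQ : 1 ≤ Q) (H M : ℕ) {e : ℕ → ℝ} (he : ∀ q, |e q| ≤ 1) (a : ℕ → ℤ) {F : ℤ → ℝ}
    (hF : ∀ n, 0 ≤ F n ∧ F n ≤ 1) :
    |∑ m ∈ Ico (1 : ℤ) (1 + M), (∑ i ∈ range H, wt (Ico Q (2 * Q)) e a (m - i)) * F m| ≤
      √ (9 * H * (1 + Real.log (2 * Q))) * √ (6 * (M + (2 * Q) ^ 2) * M) := by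
  have hQ1 : (0 : ℝ) < Q := by exact_mod_cast hQ
  set G : ℝ → ℝ := fun x => ‖lsD H (-x)‖ * ‖FF M F x‖ with hG
  have hG0 : ∀ x, 0 ≤ G x := fun x => by positivity
  set A : ℕ → ℝ := fun d => ∑ h ∈ Ico 1 d with h.Coprime d, G ((h : ℝ) / d) with hA
  have hA0 : ∀ d, 0 ≤ A d := fun d => sum_nonneg fun _ _ => hG0 _
  have s1 : ∑ m ∈ Ico (1 : ℤ) (1 + M), (∑ i ∈ range H, wt (Ico Q (2 * Q)) e a (m - i)) * F m =
      ∑ q ∈ Ico Q (2 * Q), e q * ∑ m ∈ Ico (1 : ℤ) (1 + M), (∑ i ∈ range H, bal q (a q) (m - i)) * F m := by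
    have : ∀ m : ℤ, (∑ i ∈ range H, wt (Ico Q (2 * Q)) e a (m - i)) * F m =
        ∑ q ∈ Ico Q (2 * Q), e q * ((∑ i ∈ range H, bal q (a q) (m - i)) * F m) := by
      intro m
      unfold wt
      rw [sum_comm, sum_mul]
      apply sum_congr rfl
      intro q _
      rw [← mul_sum]
      ring
    rw [sum_congr rfl (fun m _ => this m), sum_comm]
    apply sum_congr rfl
    intro q _
    rw [mul_sum]
  rw [s1]
  have s2 : |∑ q ∈ Ico Q (2 * Q), e q * ∑ m ∈ Ico (1 : ℤ) (1 + M), (∑ i ∈ range H, bal q (a q) (m - i)) * F m| ≤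
      ∑ q ∈ Ico Q (2 * Q), ∑ d ∈ Icc 2 (2 * Q), (if d ∣ q then 1 / (Q : ℝ) * A d else 0) := by
    refine (abs_sum_le_sum_abs _ _).trans (sum_le_sum fun q hq => ?_)
    rw [mem_Ico] at hq
    have hq1 : 1 ≤ q := by omega
    rw [abs_mul]
    calc |e q| * |∑ m ∈ Ico (1 : ℤ) (1 + M), (∑ i ∈ range H, bal q (a q) (m - i)) * F m|
        ≤ 1 * (1 / q * ∑ k ∈ Ico 1 q, G ((k : ℝ) / q)) :=
          mul_le_mul (he q) (win_le hq1 H M (a q) F) (abs_nonneg _) (by norm_num)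
      _ = 1 / q * ∑ k ∈ Ico 1 q, G ((k : ℝ) / q) := one_mul _
      _ ≤ 1 / Q * ∑ d ∈ Icc 2 (2 * Q) with d ∣ q, A d := by
          apply mul_le_mul _ (regroup hq1 (by omega) hG0) (sum_nonneg fun _ _ => hG0 _) (by positivity)
          apply one_div_le_one_div_of_le hQ1
          exact_mod_cast hq.1
      _ = ∑ d ∈ Icc 2 (2 * Q), (if d ∣ q then 1 / (Q : ℝ) * A d else 0) := by
          rw [mul_sum, sum_filter]
  have s3 : ∑ q ∈ Ico Q (2 * Q), ∑ d ∈ Icc 2 (2 * Q), (if d ∣ q then 1 / (Q : ℝ) * A d else 0) ≤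
      ∑ d ∈ Icc 2 (2 * Q), 3 / (d : ℝ) * A d := by
    rw [sum_comm]
    apply sum_le_sum
    intro d hd
    rw [mem_Icc] at hd
    have hd1 : (0 : ℝ) < d := by exact_mod_cast (by omega : 0 < d)
    rw [← sum_filter, sum_const, nsmul_eq_mul]
    calc (#{q ∈ Ico Q (2 * Q) | d ∣ q} : ℝ) * (1 / (Q : ℝ) * A d) ≤ (3 * Q / d) * (1 / (Q : ℝ) * A d) :=
          mul_le_mul_of_nonneg_right (count_mult (by omega)) (mul_nonneg (by positivity) (hA0 d))
      _ = 3 / (d : ℝ) * A d := by field_simp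
  have s4 : ∑ d ∈ Icc 2 (2 * Q), 3 / (d : ℝ) * A d =
      ∑ x ∈ (Icc 2 (2 * Q)).sigma (fun d => {h ∈ Ico 1 d | h.Coprime d}),
        (3 / (x.1 : ℝ) * ‖lsD H (-((x.2 : ℝ) / x.1))‖) * ‖FF M F ((x.2 : ℝ) / x.1)‖ := by
    rw [sum_sigma]
    apply sum_congr rfl
    intro d _
    simp only [hA, hG]
    rw [mul_sum]
    apply sum_congr rfl
    intro h _
    ring
  have s5 := Real.sum_mul_le_sqrt_mul_sqrt ((Icc 2 (2 * Q)).sigma (fun d => {h ∈ Ico 1 d | h.Coprime d}))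
    (fun x => 3 / (x.1 : ℝ) * ‖lsD H (-((x.2 : ℝ) / x.1))‖) (fun x => ‖FF M F ((x.2 : ℝ) / x.1)‖)
  have s6 : ∑ x ∈ (Icc 2 (2 * Q)).sigma (fun d => {h ∈ Ico 1 d | h.Coprime d}),
      (3 / (x.1 : ℝ) * ‖lsD H (-((x.2 : ℝ) / x.1))‖) ^ 2 ≤ 9 * H * (1 + Real.log (2 * Q)) := by
    rw [sum_sigma]
    have hl := harm (B := 2 * Q)
    push_cast at hl
    calc ∑ d ∈ Icc 2 (2 * Q), ∑ h ∈ Ico 1 d with h.Coprime d, (3 / (d : ℝ) * ‖lsD H (-((h : ℝ) / d))‖) ^ 2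
        ≤ ∑ d ∈ Icc 2 (2 * Q), 9 * H * (1 / (d : ℝ)) := by
          apply sum_le_sum
          intro d hd
          rw [mem_Icc] at hd
          have hd1 : (0 : ℝ) < d := by exact_mod_cast (by omega : 0 < d)
          calc ∑ h ∈ Ico 1 d with h.Coprime d, (3 / (d : ℝ) * ‖lsD H (-((h : ℝ) / d))‖) ^ 2
              ≤ ∑ h ∈ Ico 1 d, (3 / (d : ℝ) * ‖lsD H (-((h : ℝ) / d))‖) ^ 2 := by
                apply sum_le_sum_of_subset_of_nonneg (filter_subset _ _)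
                intro _ _ _; positivity
            _ = 9 / (d : ℝ) ^ 2 * ∑ h ∈ Ico 1 d, ‖lsD H (-((h : ℝ) / d))‖ ^ 2 := by
                rw [mul_sum]
                apply sum_congr rfl
                intro h _
                ring
            _ ≤ 9 / (d : ℝ) ^ 2 * (d * H) :=
                mul_le_mul_of_nonneg_left (parseval H (by omega)) (by positivity)
            _ = 9 * H * (1 / (d : ℝ)) := by field_simp
      _ = 9 * H * ∑ d ∈ Icc 2 (2 * Q), (1 / (d : ℝ)) := by rw [mul_sum]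
      _ ≤ _ := mul_le_mul_of_nonneg_left hl (by positivity)
  have s7 : ∑ x ∈ (Icc 2 (2 * Q)).sigma (fun d => {h ∈ Ico 1 d | h.Coprime d}),
      ‖FF M F ((x.2 : ℝ) / x.1)‖ ^ 2 ≤ 6 * (M + (2 * Q) ^ 2) * M := by
    rw [sum_sigma]
    have hls := additive_large_sieve M (2 * Q) (fun n => ((F n : ℝ) : ℂ))
    push_cast at hls
    calc ∑ d ∈ Icc 2 (2 * Q), ∑ h ∈ Ico 1 d with h.Coprime d, ‖FF M F ((h : ℝ) / d)‖ ^ 2
        ≤ ∑ d ∈ Icc 1 (2 * Q), ∑ h ∈ range d with h.Coprime d, ‖FF M F ((h : ℝ) / d)‖ ^ 2 := by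
          have g1 : Icc 2 (2 * Q) ⊆ Icc 1 (2 * Q) := Icc_subset_Icc_left (by norm_num)
          refine (sum_le_sum (f := fun d : ℕ => ∑ h ∈ Ico 1 d with h.Coprime d, ‖FF M F ((h : ℝ) / d)‖ ^ 2)
            (g := fun d : ℕ => ∑ h ∈ range d with h.Coprime d, ‖FF M F ((h : ℝ) / d)‖ ^ 2) ?_).trans
            (sum_le_sum_of_subset_of_nonneg g1 fun _ _ _ => sum_nonneg fun _ _ => by positivity)
          intro d _
          apply sum_le_sum_of_subset_of_nonneg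
          · intro h hh
            rw [mem_filter, mem_Ico] at hh
            rw [mem_filter, mem_range]
            exact ⟨hh.1.2, hh.2⟩
          · intro _ _ _; positivity
      _ ≤ 6 * (M + (2 * Q) ^ 2) * ∑ n ∈ Icc 1 M, ‖((F n : ℝ) : ℂ)‖ ^ 2 := by
          refine le_trans (le_of_eq ?_) hls
          apply sum_congr rfl
          intro d _
          apply sum_congr rfl
          intro h _
          unfold FF
          congr 2
          apply sum_congr rfl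
          intro n _
          rw [mul_div_assoc]
      _ ≤ 6 * (M + (2 * Q) ^ 2) * M := by
          apply mul_le_mul_of_nonneg_left _ (by positivity)
          calc ∑ n ∈ Icc 1 M, ‖((F n : ℝ) : ℂ)‖ ^ 2 ≤ ∑ n ∈ Icc 1 M, (1 : ℝ) := by
                apply sum_le_sum
                intro n _
                rw [Complex.norm_real, Real.norm_eq_abs, abs_of_nonneg (hF n).1]
                have := hF n
                nlinarith [this.1, this.2]
            _ = M := by rw [sum_const, Nat.card_Icc, nsmul_eq_mul]; simp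
  refine s2.trans (s3.trans ?_)
  rw [s4]
  refine s5.trans ?_
  exact mul_le_mul (Real.sqrt_le_sqrt s6) (Real.sqrt_le_sqrt s7) (Real.sqrt_nonneg _) (Real.sqrt_nonneg _)

end Pool.Agent.Q37.BV
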