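import Pool.Agent.Q37.BV.Asm

/-! The level of distribution, for functions constant on the windows where the trajectories merge
(both signs). -/

set_option autoImplicit false

namespace Pool.Agent.Q37.BV

open Finset Filter Topology Pool.Agent.H499R2.CO Pool.Agent.W38.CR Pool.Agent.Y967.CM

/-- `F` is constant on the windows above the good points -/
def Win (s : ℤ) (F : ℤ → ℝ) : Prop := (∀ n, 0 ≤ F n ∧ F n ≤ 1) ∧ ∀ (T m : ℕ) (n : ℤ), 1 ≤ n →
  ¬ WB T m (s * n + -2 ^ (2 ^ m - 1)) → ∀ i : ℤ, 0 ≤ i → i < 2 ^ (2 ^ m - 1) → F (n + i) = F n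

/-- the discrepancy -/
noncomputable def dF (F : ℤ → ℝ) (M q : ℕ) (a : ℤ) : ℝ := ∑ n ∈ Ico (1 : ℤ) (1 + M), bal q a n * F n

theorem level_gen {δ : ℝ} (hδ : 0 < δ) {ε : ℝ} (hε : 0 < ε) : ∃ N₀ : ℕ, ∀ s : ℤ, s = 1 ∨ s = -1 →
    ∀ F : ℤ → ℝ, Win s F →
    ∀ N : ℕ, N₀ ≤ N → ∀ Q : ℕ, 1 ≤ Q → (Q : ℝ) ≤ lev δ N → ∀ M : ℕ, M ≤ N → ∀ a : ℕ → ℤ,
      ∑ q ∈ Ico Q (2 * Q), |dF F M q (a q)| ≤ ε * N := by
  classical
  obtain ⟨J, hJ⟩ := pow_unbounded_of_one_lt (48 / ε) (show (1 : ℝ) < 2 by norm_num)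
  set η : ℝ := ε / (8 * (2 ^ J + 3)) with hη
  have hη0 : 0 < η := by positivity
  obtain ⟨m0, hm0⟩ := phase hη0
  have hgr := log_nat_tendsto.eventually (growth (Real.log (12960 / ε ^ 2)) hδ)
  have hll : Tendsto (fun N : ℕ => Real.log (Real.log N)) atTop atTop :=
    Real.tendsto_log_atTop.comp log_nat_tendsto
  obtain ⟨N₀, hN₀⟩ := eventually_atTop.1 (((choose_RR (show (0 : ℝ) < 1 / 8 by norm_num) m0).and hgr).and
    ((eventually_ge_atTop 1).and ((log_nat_tendsto.eventually_ge_atTop (max 16 (4 * Real.log (80 / ε)))).and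
      (hll.eventually_ge_atTop 1))))
  refine ⟨N₀, fun s hs F hWin N hN Q hQ hQl M hM a => ?_⟩
  obtain ⟨⟨⟨m, hm, hm1, hm2⟩, hg⟩, hN1, hx, hlx⟩ := hN₀ N hN
  obtain ⟨T, hT, hav⟩ := hm0 m hm
  set x := Real.log N with hxdef
  have hx16 : 16 ≤ x := (le_max_left _ _).trans hx
  have hxε : 4 * Real.log (80 / ε) ≤ x := (le_max_right _ _).trans hx
  have hNr : (1 : ℝ) ≤ N := by exact_mod_cast hN1
  have hN0 : (0 : ℝ) < N := by linarith
  have eN : (N : ℝ) = Real.exp x := (Real.exp_log hN0).symm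
  have esq : √ (N : ℝ) = Real.exp (x / 2) := by
    rw [eN, ← Real.exp_half]
  set ρ := x ^ (1 / 2 - δ) with hρ
  have hρ0 : 0 ≤ ρ := by positivity
  have hρ1 : ρ ≤ x / 4 := by
    calc ρ ≤ x ^ (1 / 2 : ℝ) := Real.rpow_le_rpow_of_exponent_le (by linarith) (by linarith)
      _ = √ x := by rw [← Real.sqrt_eq_rpow]
      _ ≤ x / 4 := by
          rw [Real.sqrt_le_left (by linarith)]
          nlinarith
  have hQe : (Q : ℝ) ≤ Real.exp (x / 2 + ρ) := by
    unfold lev at hQl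
    rw [esq, ← Real.exp_add] at hQl
    exact hQl
  have hQ34 : (Q : ℝ) ≤ Real.exp (3 * x / 4) := hQe.trans (Real.exp_le_exp.2 (by linarith))
  have hQ1 : (1 : ℝ) ≤ Q := by exact_mod_cast hQ
  have hMN : (M : ℝ) ≤ N := by exact_mod_cast hM
  have hM0 : (0 : ℝ) ≤ M := Nat.cast_nonneg _
  -- the windows
  set r := √ x / (Real.log x) ^ 17 with hr
  have hRR : RR N = Real.exp r := rfl
  have hRRm := hm2 N (by
    rw [Real.sqrt_le_left hN0.le]; nlinarith) le_rfl
  set H : ℕ := ⌊RR N⌋₊ + 1 with hH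
  have hHge : Real.exp r ≤ H := by
    rw [hH, ← hRR]; push_cast; exact (Nat.lt_floor_add_one _).le
  have hHle : (H : ℝ) ≤ Real.exp r + 1 := by
    rw [hH, ← hRR]; push_cast
    have := Nat.floor_le (show 0 ≤ RR N by rw [hRR]; positivity)
    linarith
  have hHm : H ≤ 2 ^ (2 ^ m - 1) := by
    have h1 : ⌊RR N⌋₊ < 2 ^ (2 ^ m - 1) := by
      rw [Nat.floor_lt (by rw [hRR]; positivity)]
      push_cast
      exact hRRm
    omega
  have hsodd : s % 2 = 1 := by rcases hs with rfl | rfl <;> norm_num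
  have hr4 : r ≤ x / 4 := by
    rw [hr, div_le_iff₀ (by positivity)]
    have h1 : (1 : ℝ) ≤ Real.log x ^ 17 := one_le_pow₀ hlx
    have h2 : √ x ≤ x / 4 := by
      rw [Real.sqrt_le_left (by linarith)]
      nlinarith
    nlinarith
  have hr0 : 0 ≤ r := by positivity
  -- the bits
  have hTx : (T : ℝ) ≤ 1 / 8 * x := by
    have : (T : ℝ) ≤ ((2 * (4 ^ m * m ^ 30) : ℕ) : ℝ) := by exact_mod_cast hT
    linarith
  have h2T : (2 : ℝ) ^ T ≤ Real.exp (x / 8) := by
    have h1 := two_pow_le hN1 hTx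
    rw [Real.rpow_def_of_pos hN0, ← hxdef] at h1
    rwa [show x * (1 / 8) = x / 8 by ring] at h1
  have hcount : (#{c ∈ range (2 ^ T) | WB T m (s * ((c : ℕ) : ℤ) + -2 ^ (2 ^ m - 1))} : ℝ) ≤ η * 2 ^ T := by
    have h1 := WB_count T m (a := s) hsodd (-2 ^ (2 ^ m - 1))
    rw [h1, mul_comm]
    exact mul_le_mul_of_nonneg_right hav (by positivity)
  have hcore := core_abs (B := fun n => WB T m (s * n + -2 ^ (2 ^ m - 1))) (fun y k => by
      have e : s * (y + k * 2 ^ T) + -2 ^ (2 ^ m - 1) = (s * y + -2 ^ (2 ^ m - 1)) + (s * k) * 2 ^ T := by ring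
      simp only [e]
      exact WB_periodic T m _ _) hη0.le hcount M J (H := H) (Q := Q)
    (by omega) hQ a (F := F) hWin.1 (by
      intro n hn hW i hi0 hi
      refine hWin.2 T m n hn hW i hi0 ?_
      have : (H : ℤ) ≤ 2 ^ (2 ^ m - 1) := by exact_mod_cast hHm
      omega)
  refine hcore.trans ?_
  have hQN : (Q : ℝ) ≤ N := by
    rw [eN]; exact hQ34.trans (Real.exp_le_exp.2 (by linarith))
  have hQT : (Q : ℝ) * 2 ^ T ≤ N := by
    calc (Q : ℝ) * 2 ^ T ≤ Real.exp (3 * x / 4) * Real.exp (x / 8) :=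
          mul_le_mul hQ34 h2T (by positivity) (by positivity)
      _ = Real.exp (3 * x / 4 + x / 8) := by rw [Real.exp_add]
      _ ≤ Real.exp x := Real.exp_le_exp.2 (by linarith)
      _ = N := eN.symm
  have h2TN : (2 : ℝ) ^ T ≤ N := by
    rw [eN]; exact h2T.trans (Real.exp_le_exp.2 (by linarith))
  have t1 : η * (M * 2 ^ J + Q * 2 ^ T) + η * (M + 2 ^ T) ≤ ε / 8 * N := by
    have h1 : (M : ℝ) * 2 ^ J ≤ N * 2 ^ J := mul_le_mul_of_nonneg_right hMN (by positivity)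
    calc η * (M * 2 ^ J + Q * 2 ^ T) + η * (M + 2 ^ T) = η * (M * 2 ^ J + Q * 2 ^ T + M + 2 ^ T) := by ring
      _ ≤ η * (N * 2 ^ J + N + N + N) := mul_le_mul_of_nonneg_left (by linarith) hη0.le
      _ = ε / 8 * N := by rw [hη]; field_simp; ring
  have t2 : 3 * ((M : ℝ) + Q) / 2 ^ J ≤ ε / 8 * N := by
    rw [div_le_iff₀ (by positivity)]
    rw [div_lt_iff₀ hε] at hJ
    have h1 : 48 * (N : ℝ) ≤ (2 ^ J * ε) * N := mul_le_mul_of_nonneg_right hJ.le hN0.le
    have h2 : ε / 8 * N * 2 ^ J = ((2 ^ J * ε) * N) / 8 := by ring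
    rw [h2]
    linarith
  have t3 : 2 * (2 * (H : ℝ) + Q) ≤ ε / 8 * N := by
    have h1 : Real.exp r ≤ Real.exp (3 * x / 4) := Real.exp_le_exp.2 (by linarith)
    have h2 : (1 : ℝ) ≤ Real.exp (3 * x / 4) := Real.one_le_exp (by linarith)
    have h3 : 80 / ε ≤ Real.exp (x / 4) := by
      rw [← Real.log_le_iff_le_exp (by positivity)]
      linarith
    have h4 : Real.exp (3 * x / 4) * Real.exp (x / 4) = N := by
      rw [← Real.exp_add, eN]; congr 1; ring
    rw [div_le_iff₀ hε] at h3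
    have h5 : 0 < Real.exp (3 * x / 4) := Real.exp_pos _
    have h6 : 80 * Real.exp (3 * x / 4) ≤ (Real.exp (x / 4) * ε) * Real.exp (3 * x / 4) :=
      mul_le_mul_of_nonneg_right h3 h5.le
    have h7 : (Real.exp (x / 4) * ε) * Real.exp (3 * x / 4) = ε * N := by rw [← h4]; ring
    rw [h7] at h6
    linarith
  have t4 : √ (9 * H * (1 + Real.log (2 * Q))) * √ (6 * (M + (2 * Q) ^ 2) * M) / H ≤ ε / 4 * N := by
    have hH0 : (0 : ℝ) < H := lt_of_lt_of_le (Real.exp_pos _) hHge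
    rw [div_le_iff₀ hH0]
    have hlogQ : Real.log (2 * Q) ≤ Real.log 2 + 3 * x / 4 := by
      rw [Real.log_mul (by norm_num) (by positivity)]
      have := Real.log_le_log (by linarith) hQ34
      rw [Real.log_exp] at this
      linarith
    have hlogQ0 : 0 ≤ Real.log (2 * Q) := Real.log_nonneg (by linarith)
    have hl2 := Real.log_two_lt_d9
    have hlog3 : 1 + Real.log (2 * Q) ≤ 3 * x := by linarith
    rw [← Real.sqrt_mul (by positivity)]
    apply Real.sqrt_le_iff.2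
    refine ⟨by positivity, ?_⟩
    have hQ2 : (2 * (Q : ℝ)) ^ 2 ≤ 4 * (N * Real.exp (2 * ρ)) := by
      have : (Q : ℝ) ^ 2 ≤ Real.exp (x / 2 + ρ) ^ 2 := pow_le_pow_left₀ (by linarith) hQe 2
      rw [← Real.exp_nat_mul] at this
      rw [eN, ← Real.exp_add]
      have e1 : ((2 : ℕ) : ℝ) * (x / 2 + ρ) = x + 2 * ρ := by push_cast; ring
      rw [e1] at this
      calc (2 * (Q : ℝ)) ^ 2 = 4 * (Q : ℝ) ^ 2 := by ring
        _ ≤ _ := mul_le_mul_of_nonneg_left this (by norm_num)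
    have hM5 : (M : ℝ) + (2 * Q) ^ 2 ≤ 5 * (N * Real.exp (2 * ρ)) := by
      have h1 : (1 : ℝ) ≤ Real.exp (2 * ρ) := Real.one_le_exp (by linarith)
      have h2 : (N : ℝ) * 1 ≤ N * Real.exp (2 * ρ) := mul_le_mul_of_nonneg_left h1 hN0.le
      linarith
    have hkey : 810 * x * Real.exp (2 * ρ) ≤ ε ^ 2 / 16 * H := by
      have hx0 : 0 < x := by linarith
      have h1 : Real.exp (2 * ρ + Real.log x + Real.log (12960 / ε ^ 2)) ≤ Real.exp r := Real.exp_le_exp.2 hg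
      rw [Real.exp_add, Real.exp_add, Real.exp_log hx0, Real.exp_log (by positivity)] at h1
      have h2 := h1.trans hHge
      have h3 : Real.exp (2 * ρ) * x * (12960 / ε ^ 2) * (ε ^ 2 / 16) = 810 * x * Real.exp (2 * ρ) := by
        field_simp; norm_num
      rw [← h3, mul_comm (ε ^ 2 / 16) (H : ℝ)]
      exact mul_le_mul_of_nonneg_right h2 (by positivity)
    calc 9 * (H : ℝ) * (1 + Real.log (2 * Q)) * (6 * (M + (2 * Q) ^ 2) * M)
        ≤ 9 * (H : ℝ) * (3 * x) * (6 * (5 * (N * Real.exp (2 * ρ))) * N) := by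
          apply mul_le_mul
          · exact mul_le_mul_of_nonneg_left hlog3 (by positivity)
          · apply mul_le_mul _ hMN hM0 (by positivity)
            exact mul_le_mul_of_nonneg_left hM5 (by norm_num)
          · positivity
          · positivity
      _ = (810 * x * Real.exp (2 * ρ)) * (H * N ^ 2) := by ring
      _ ≤ (ε ^ 2 / 16 * H) * (H * N ^ 2) := mul_le_mul_of_nonneg_right hkey (by positivity)
      _ = (ε / 4 * N * H) ^ 2 := by ring
  have hεN : 0 ≤ ε * N := by positivity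
  linarith

/-- invariance -/
def InvZ (S : Set ℤ) : Prop := ∀ x : ℤ, x ∈ S ↔ Tz 1 x ∈ S

open Classical in
/-- the indicator function of one side of `S` -/
noncomputable def FS (S : Set ℤ) (s : ℤ) (n : ℤ) : ℝ := if 1 ≤ n ∧ s * n ∈ S then 1 else 0

theorem InvZ.iter {S : Set ℤ} (hS : InvZ S) (t : ℕ) : ∀ x : ℤ, x ∈ S ↔ (Tz 1)^[t] x ∈ S := by
  induction t with
  | zero => intro x; rfl
  | succ t ih =>
    intro x
    rw [Function.iterate_succ_apply, ← ih]
    exact hS x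

theorem FS_win {S : Set ℤ} (hS : InvZ S) {s : ℤ} (hs : s = 1 ∨ s = -1) : Win s (FS S s) := by
  constructor
  · intro n
    unfold FS
    split_ifs <;> norm_num
  · intro T m n hn hW i h0 hi
    have h1 : (Tz 1)^[T] (s * n + s * i) = (Tz 1)^[T] (s * n) := by
      apply WB_both (m := m)
      · rwa [← sub_eq_add_neg] at hW
      · rcases hs with rfl | rfl
        · rw [one_mul, abs_of_nonneg h0]; exact hi
        · rw [neg_one_mul, abs_neg, abs_of_nonneg h0]; exact hi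
    have h3 : s * (n + i) ∈ S ↔ s * n ∈ S := by
      rw [mul_add, hS.iter T, h1, ← hS.iter T]
    unfold FS
    by_cases h4 : s * n ∈ S
    · rw [if_pos ⟨by omega, h3.2 h4⟩, if_pos ⟨hn, h4⟩]
    · rw [if_neg (fun h => h4 (h3.1 h.2)), if_neg (fun h => h4 h.2)]

end Pool.Agent.Q37.BV
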