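import Pool.Agent.Q37.BV.Tit
import Pool.Agent.H499R2.NDCor

/-! Small elements of invariant sets in all classes, for almost all moduli. -/

set_option autoImplicit false

namespace Pool.Agent.Q37.BV

open Finset Filter Topology Pool.Agent.Y967.CM

/-- the length -/
noncomputable def len (δ : ℝ) (Q : ℕ) : ℝ := (Q : ℝ) ^ 2 * Real.exp (-(Real.log Q ^ (1 / 2 - δ)))

theorem c1_ncard (P : ℕ → Prop) (N : ℕ) : c1 P N = ({n : ℕ | 1 ≤ n ∧ n ≤ N ∧ P n}.ncard : ℝ) := by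
  classical
  have e1 : {n : ℕ | 1 ≤ n ∧ n ≤ N ∧ P n} = ((Icc 1 N).filter P : Finset ℕ) := by
    ext n
    simp [and_assoc]
  rw [e1, Set.ncard_coe_finset, card_filter]
  unfold c1
  rw [sum_Ico_nat]
  push_cast
  apply sum_congr rfl
  intro n hn
  rw [mem_Icc] at hn
  unfold FP
  rw [Int.toNat_natCast]
  have : (1 : ℤ) ≤ (n : ℤ) := by exact_mod_cast hn.1
  by_cases h : P n
  · rw [if_pos ⟨this, h⟩, if_pos h]
  · rw [if_neg (fun h2 => h h2.2), if_neg h]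

theorem len_facts {δ : ℝ} (hδ : 0 < δ) (hδ2 : δ < 1 / 2) : ∀ᶠ Q : ℕ in atTop,
    Q ≤ ⌊len δ Q⌋₊ ∧ (Q : ℝ) ≤ lev δ ⌊len δ Q⌋₊ := by
  have hpow : Tendsto (fun Q : ℕ => Real.log Q ^ (1 / 2 - δ)) atTop atTop :=
    (tendsto_rpow_atTop (by linarith)).comp log_nat_tendsto
  filter_upwards [eventually_ge_atTop 1, log_nat_tendsto.eventually_ge_atTop 4, hpow.eventually_ge_atTop 2]
    with Q hQ hx hy
  set x := Real.log Q with hxdef
  set y := x ^ (1 / 2 - δ) with hydef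
  have hQ0 : (0 : ℝ) < Q := by exact_mod_cast hQ
  have hQ1 : (1 : ℝ) ≤ Q := by exact_mod_cast hQ
  have eQ : (Q : ℝ) = Real.exp x := (Real.exp_log hQ0).symm
  have hy1 : y ≤ x / 2 := by
    calc y ≤ x ^ (1 / 2 : ℝ) := Real.rpow_le_rpow_of_exponent_le (by linarith) (by linarith)
      _ = √ x := by rw [← Real.sqrt_eq_rpow]
      _ ≤ x / 2 := by
          rw [Real.sqrt_le_left (by linarith)]
          nlinarith
  have hlen : len δ Q = Q * Real.exp (x - y) := by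
    unfold len
    rw [sq, mul_assoc]
    congr 1
    conv_lhs => rw [eQ]
    rw [← Real.exp_add]
    rw [Real.log_exp]
    congr 1
  have h2 : (2 : ℝ) ≤ Real.exp (x - y) := by
    have h3 : Real.exp 1 ≤ Real.exp (x - y) := Real.exp_le_exp.2 (by linarith)
    have := Real.exp_one_gt_d9
    linarith
  have hlen2 : 2 * (Q : ℝ) ≤ len δ Q := by
    rw [hlen]
    nlinarith
  set N := ⌊len δ Q⌋₊ with hN
  have hNQ : Q ≤ N := by
    rw [hN]
    apply Nat.le_floor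
    linarith
  refine ⟨hNQ, ?_⟩
  have hN1 : len δ Q < N + 1 := Nat.lt_floor_add_one _
  have hN4 : len δ Q / 4 ≤ N := by linarith
  have hN0 : (0 : ℝ) < N := by
    have : (Q : ℝ) ≤ N := by exact_mod_cast hNQ
    linarith
  have hsq : (Q : ℝ) * Real.exp (-(y / 2)) / 2 ≤ √ (N : ℝ) := by
    apply Real.le_sqrt_of_sq_le
    refine le_trans (le_of_eq ?_) hN4
    have e1 : Real.exp (-(y / 2)) ^ 2 = Real.exp (-y) := by
      rw [← Real.exp_nat_mul]; congr 1; push_cast; ring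
    unfold len
    rw [div_pow, mul_pow, e1, ← hxdef, ← hydef]
    norm_num
  have hlogN : x ≤ Real.log N := Real.log_le_log hQ0 (by exact_mod_cast hNQ)
  have hpw : y ≤ Real.log N ^ (1 / 2 - δ) := Real.rpow_le_rpow (by linarith) hlogN (by linarith)
  unfold lev
  calc (Q : ℝ) ≤ ((Q : ℝ) * Real.exp (-(y / 2)) / 2) * Real.exp y := by
        have e1 : ((Q : ℝ) * Real.exp (-(y / 2)) / 2) * Real.exp y = Q * (Real.exp (y / 2) / 2) := by
          have : Real.exp (-(y / 2)) * Real.exp y = Real.exp (y / 2) := by rw [← Real.exp_add]; congr 1; ring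
          rw [← this]; ring
        rw [e1]
        have h3 : Real.exp 1 ≤ Real.exp (y / 2) := Real.exp_le_exp.2 (by linarith)
        have := Real.exp_one_gt_d9
        nlinarith
    _ ≤ √ (N : ℝ) * Real.exp (Real.log N ^ (1 / 2 - δ)) :=
        mul_le_mul hsq (Real.exp_le_exp.2 hpw) (Real.exp_pos _).le (Real.sqrt_nonneg _)

theorem linnik {δ : ℝ} (hδ : 0 < δ) (hδ2 : δ < 1 / 2) {P : ℕ → Prop} (hP : InvT P) (hne : ∃ n, 1 ≤ n ∧ P n)
    {ε : ℝ} (hε : 0 < ε) : ∃ Q₀ : ℕ, ∀ Q : ℕ, Q₀ ≤ Q →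
      ({q : ℕ | Q ≤ q ∧ q < 2 * Q ∧ ∃ a : ℤ, ∀ n : ℕ, 1 ≤ n → (n : ℝ) ≤ len δ Q → (q : ℤ) ∣ n - a → ¬ P n}.ncard : ℝ)
        ≤ ε * Q := by
  classical
  obtain ⟨l, -, -, hl, hl2, -⟩ := Pool.Agent.H499R2.ND.nat_density hP
  have hl0 : 0 < l := hl2.2 hne
  obtain ⟨N₁, h1⟩ := level_max hδ (show 0 < ε * l / 8 by positivity)
  obtain ⟨N₂, h2⟩ := eventually_atTop.1 ((hl.eventually (lt_mem_nhds (show l / 2 < l by linarith))).and
    (eventually_ge_atTop 1))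
  obtain ⟨Q₁, h3⟩ := eventually_atTop.1 (len_facts hδ hδ2)
  refine ⟨max (max N₁ N₂) (max Q₁ 1), fun Q hQ => ?_⟩
  have hQ1 : N₁ ≤ Q := ((le_max_left _ _).trans (le_max_left _ _)).trans hQ
  have hQ2 : N₂ ≤ Q := ((le_max_right _ _).trans (le_max_left _ _)).trans hQ
  have hQ3 : Q₁ ≤ Q := ((le_max_left _ _).trans (le_max_right _ _)).trans hQ
  have hQ4 : 1 ≤ Q := ((le_max_right _ _).trans (le_max_right _ _)).trans hQ
  obtain ⟨h4, h5⟩ := h3 Q hQ3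
  set N := ⌊len δ Q⌋₊ with hN
  have hlen0 : 0 ≤ len δ Q := by unfold len; positivity
  obtain ⟨h6, h7⟩ := h2 N (hQ2.trans h4)
  have hN0 : (0 : ℝ) < N := by exact_mod_cast h7
  have hQ0 : (0 : ℝ) < Q := by exact_mod_cast hQ4
  have hc : l / 2 * N ≤ c1 P N := by
    rw [c1_ncard]
    rw [lt_div_iff₀ hN0] at h6
    exact h6.le
  -- the classes
  have hch : ∀ q : ℕ, ∃ a : ℤ, (∃ a : ℤ, ∀ n : ℕ, 1 ≤ n → (n : ℝ) ≤ len δ Q → (q : ℤ) ∣ n - a → ¬ P n) →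
      ∀ n : ℕ, 1 ≤ n → (n : ℝ) ≤ len δ Q → (q : ℤ) ∣ n - a → ¬ P n := by
    intro q
    by_cases h : ∃ a : ℤ, ∀ n : ℕ, 1 ≤ n → (n : ℝ) ≤ len δ Q → (q : ℤ) ∣ n - a → ¬ P n
    · obtain ⟨a, ha⟩ := h
      exact ⟨a, fun _ => ha⟩
    · exact ⟨0, fun h' => absurd h' h⟩
  choose a ha using hch
  have h8 := h1 P hP N (hQ1.trans h4) Q hQ4 h5 (fun _ => N) (fun _ => le_rfl) a
  have e1 : {q : ℕ | Q ≤ q ∧ q < 2 * Q ∧ ∃ a : ℤ, ∀ n : ℕ, 1 ≤ n → (n : ℝ) ≤ len δ Q → (q : ℤ) ∣ n - a → ¬ P n} =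
      ((Ico Q (2 * Q)).filter (fun q : ℕ => ∃ a : ℤ, ∀ n : ℕ, 1 ≤ n → (n : ℝ) ≤ len δ Q → (q : ℤ) ∣ n - a → ¬ P n) :
        Finset ℕ) := by
    ext q
    simp [and_assoc]
  rw [e1, Set.ncard_coe_finset]
  set B := (Ico Q (2 * Q)).filter (fun q : ℕ => ∃ a : ℤ, ∀ n : ℕ, 1 ≤ n → (n : ℝ) ≤ len δ Q → (q : ℤ) ∣ n - a → ¬ P n) with hB
  have h9 : ∀ q ∈ B, l / 4 * (N / Q) ≤ |disc P N q (a q)| := by
    intro q hq
    rw [hB, mem_filter, mem_Ico] at hq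
    obtain ⟨⟨g1, g2⟩, g3⟩ := hq
    have g4 := ha q g3
    have g5 : ∑ n ∈ Ico (1 : ℤ) (1 + N), ind q (a q) n * FP P n = 0 := by
      rw [sum_Ico_nat]
      apply sum_eq_zero
      intro n hn
      rw [mem_Icc] at hn
      by_cases h : (q : ℤ) ∣ (n : ℤ) - a q
      · have g6 : (n : ℝ) ≤ len δ Q := (Nat.le_floor_iff hlen0).1 (hn.2.trans (by rw [hN]))
        have g7 := g4 n hn.1 g6 h
        have g8 : FP P (n : ℤ) = 0 := by
          unfold FP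
          rw [Int.toNat_natCast]
          exact if_neg (fun h2 => g7 h2.2)
        rw [g8, mul_zero]
      · have g8 : ind q (a q) (n : ℤ) = 0 := by
          unfold ind
          exact if_neg h
        rw [g8, zero_mul]
    have hq0 : (0 : ℝ) < q := by exact_mod_cast (by omega : 0 < q)
    rw [disc_eq, g5, zero_sub, abs_neg, abs_of_nonneg (div_nonneg (c1_nonneg _ _) hq0.le)]
    have g6 : (q : ℝ) ≤ 2 * Q := by exact_mod_cast g2.le
    calc l / 4 * (N / Q) = (l / 2 * N) / (2 * Q) := by field_simp; ring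
      _ ≤ c1 P N / (2 * Q) := div_le_div_of_nonneg_right hc (by positivity)
      _ ≤ c1 P N / q := div_le_div_of_nonneg_left (c1_nonneg _ _) hq0 g6
  have h10 : (#B : ℝ) * (l / 4 * (N / Q)) ≤ ε * l / 8 * N := by
    calc (#B : ℝ) * (l / 4 * (N / Q)) = ∑ q ∈ B, l / 4 * (N / Q) := by rw [sum_const, nsmul_eq_mul]
      _ ≤ ∑ q ∈ B, |disc P N q (a q)| := sum_le_sum h9
      _ ≤ ∑ q ∈ Ico Q (2 * Q), |disc P N q (a q)| :=
          sum_le_sum_of_subset_of_nonneg (filter_subset _ _) fun _ _ _ => abs_nonneg _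
      _ ≤ _ := h8
  have h11 : (#B : ℝ) ≤ ε * Q / 2 := by
    have e2 : (#B : ℝ) * (l / 4 * (N / Q)) = (#B / Q) * (l / 4 * N) := by ring
    have e3 : ε * l / 8 * N = (ε / 2) * (l / 4 * N) := by ring
    rw [e2, e3] at h10
    have h12 := le_of_mul_le_mul_right h10 (by positivity)
    rw [div_le_iff₀ hQ0] at h12
    linarith
  have : 0 ≤ ε * Q := by positivity
  linarith

end Pool.Agent.Q37.BV
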