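import Pool.Agent.Q37.BV.Asm

/-! The maximum over the initial segments. -/

set_option autoImplicit false

namespace Pool.Agent.Q37.BV

open Finset Filter Topology Pool.Agent.Y967.CM

theorem lev_small {δ : ℝ} (hδ : 0 < δ) {c : ℝ} (hc : 0 < c) : ∀ᶠ N : ℕ in atTop, lev δ N ≤ c * N := by
  filter_upwards [eventually_ge_atTop 1, log_nat_tendsto.eventually_ge_atTop (max 16 (-(4 * Real.log c)))]
    with N hN hx
  set x := Real.log N with hxdef
  have hx16 : 16 ≤ x := (le_max_left _ _).trans hx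
  have hxc : -(4 * Real.log c) ≤ x := (le_max_right _ _).trans hx
  have hN0 : (0 : ℝ) < N := by exact_mod_cast hN
  have eN : (N : ℝ) = Real.exp x := (Real.exp_log hN0).symm
  have esq : √ (N : ℝ) = Real.exp (x / 2) := by rw [eN, ← Real.exp_half]
  have hρ1 : x ^ (1 / 2 - δ) ≤ x / 4 := by
    calc x ^ (1 / 2 - δ) ≤ x ^ (1 / 2 : ℝ) := Real.rpow_le_rpow_of_exponent_le (by linarith) (by linarith)
      _ = √ x := by rw [← Real.sqrt_eq_rpow]
      _ ≤ x / 4 := by
          rw [Real.sqrt_le_left (by linarith)]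
          nlinarith
  unfold lev
  rw [esq, ← hxdef, ← Real.exp_add, eN, ← Real.exp_log hc, ← Real.exp_add]
  exact Real.exp_le_exp.2 (by linarith)

theorem disc_diff (P : ℕ → Prop) {M' M q : ℕ} (h : M' ≤ M) (hq : 1 ≤ q) (a : ℤ) :
    |disc P M q a - disc P M' q a| ≤ 2 * ((M : ℝ) - M') / q + 1 := by
  have e : disc P M q a - disc P M' q a = ∑ n ∈ Ico ((1 : ℤ) + M') (1 + M), bal q a n * FP P n := by
    unfold disc
    have h1 : (1 : ℤ) ≤ 1 + M' := by omega
    have h2 : (1 : ℤ) + M' ≤ 1 + M := by omega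
    rw [← Finset.Ico_union_Ico_eq_Ico h1 h2, sum_union (Finset.Ico_disjoint_Ico_consecutive _ _ _)]
    ring
  rw [e]
  have e2 : (1 : ℤ) + M = (1 + M') + ((M - M' : ℕ) : ℤ) := by omega
  rw [e2]
  calc |∑ n ∈ Ico ((1 : ℤ) + M') (1 + M' + ((M - M' : ℕ) : ℤ)), bal q a n * FP P n|
      ≤ ∑ n ∈ Ico ((1 : ℤ) + M') (1 + M' + ((M - M' : ℕ) : ℤ)), (ind q a n + 1 / q) := by
        refine (abs_sum_le_sum_abs _ _).trans (sum_le_sum fun n _ => ?_)
        rw [abs_mul, abs_of_nonneg (FP_bd P n).1]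
        have h1 : |bal q a n| ≤ ind q a n + 1 / q := by
          unfold bal
          have h2 := ind_nonneg q a n
          have h3 : (0 : ℝ) ≤ 1 / q := by positivity
          rw [abs_le]
          constructor <;> linarith
        calc |bal q a n| * FP P n ≤ |bal q a n| * 1 := mul_le_mul_of_nonneg_left (FP_bd P n).2 (abs_nonneg _)
          _ ≤ _ := by rw [mul_one]; exact h1
    _ ≤ 2 * ((M : ℝ) - M') / q + 1 := by
        have h1 := sum_ind ((1 : ℤ) + M') (M - M') hq a
        rw [abs_le] at h1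
        rw [sum_add_distrib, sum_const, Int.card_Ico, nsmul_eq_mul]
        have h2 : ((((1 : ℤ) + M' + ((M - M' : ℕ) : ℤ) - (1 + M')).toNat : ℕ) : ℝ) = (M : ℝ) - M' := by
          rw [show (1 : ℤ) + M' + ((M - M' : ℕ) : ℤ) - (1 + M') = ((M - M' : ℕ) : ℤ) by ring, Int.toNat_natCast,
            Nat.cast_sub h]
        rw [h2]
        have h3 : ((M - M' : ℕ) : ℝ) = (M : ℝ) - M' := Nat.cast_sub h
        rw [h3] at h1
        have h4 : ((M : ℝ) - M') * (1 / q) = ((M : ℝ) - M') / q := by ring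
        have h5 : 2 * ((M : ℝ) - M') / q = ((M : ℝ) - M') / q + ((M : ℝ) - M') / q := by ring
        rw [h4, h5]
        linarith [h1.2]

/-- **The level of distribution, with the maximum over the initial segments.** -/
theorem level_max {δ : ℝ} (hδ : 0 < δ) {ε : ℝ} (hε : 0 < ε) : ∃ N₀ : ℕ, ∀ P : ℕ → Prop, InvT P →
    ∀ N : ℕ, N₀ ≤ N → ∀ Q : ℕ, 1 ≤ Q → (Q : ℝ) ≤ lev δ N → ∀ (M : ℕ → ℕ), (∀ q, M q ≤ N) → ∀ a : ℕ → ℤ,
      ∑ q ∈ Ico Q (2 * Q), |disc P (M q) q (a q)| ≤ ε * N := by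
  set K : ℕ := ⌈8 / ε⌉₊ + 1 with hK
  have hK1 : 1 ≤ K := by omega
  have hK0 : (0 : ℝ) < K := by exact_mod_cast hK1
  have hKε : 2 / (K : ℝ) ≤ ε / 4 := by
    have h1 : 8 / ε ≤ K := by
      rw [hK]; push_cast
      have := Nat.le_ceil (8 / ε)
      linarith
    rw [div_le_iff₀ hε] at h1
    rw [div_le_iff₀ hK0]
    linarith
  obtain ⟨N₁, h1⟩ := level_core hδ (show 0 < ε / (2 * (K + 1)) by positivity)
  obtain ⟨N₂, h2⟩ := eventually_atTop.1 ((lev_small hδ (show 0 < ε / 8 by positivity)).and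
    ((tendsto_natCast_atTop_atTop (R := ℝ)).eventually_ge_atTop (16 / ε)))
  refine ⟨max N₁ (max N₂ 1), fun P hP N hN Q hQ hQl M hM a => ?_⟩
  have hN1 : N₁ ≤ N := (le_max_left _ _).trans hN
  have hN2 : N₂ ≤ N := (le_max_left _ _).trans ((le_max_right _ _).trans hN)
  have hN3 : 1 ≤ N := (le_max_right _ _).trans ((le_max_right _ _).trans hN)
  obtain ⟨h3, h4⟩ := h2 N hN2
  rw [div_le_iff₀ hε] at h4
  have hN0 : (0 : ℝ) < N := by exact_mod_cast hN3
  have hQ0 : (0 : ℝ) < Q := by exact_mod_cast hQ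
  set j : ℕ → ℕ := fun q => K * M q / N with hj
  set m : ℕ → ℕ := fun i => i * N / K with hm
  have hjK : ∀ q, j q ≤ K := by
    intro q
    simp only [hj]
    apply Nat.div_le_of_le_mul
    rw [mul_comm]
    exact Nat.mul_le_mul_right _ (hM q) |>.trans (by rw [mul_comm])
  have hmN : ∀ i ≤ K, m i ≤ N := by
    intro i hi
    simp only [hm]
    apply Nat.div_le_of_le_mul
    exact Nat.mul_le_mul_right _ hi
  have hmM : ∀ q, m (j q) ≤ M q := by
    intro q
    simp only [hm, hj]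
    apply Nat.div_le_of_le_mul
    exact Nat.div_mul_le_self _ _
  have hgap : ∀ q, (M q : ℝ) - m (j q) ≤ N / K + 1 := by
    intro q
    have g1 : K * M q < (j q + 1) * N := by
      simp only [hj]
      have := Nat.lt_div_mul_add (a := K * M q) (b := N) (by omega)
      nlinarith
    have g2 : j q * N < (m (j q) + 1) * K := by
      simp only [hm]
      have := Nat.lt_div_mul_add (a := j q * N) (b := K) (by omega)
      nlinarith
    have g1' : (K : ℝ) * M q < (j q + 1) * N := by exact_mod_cast g1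
    have g2' : (j q : ℝ) * N < (m (j q) + 1) * K := by exact_mod_cast g2
    have g3 : ((M q : ℝ) - m (j q) - 1) * K ≤ N := by nlinarith
    rw [← le_div_iff₀ hK0] at g3
    linarith
  have step : ∀ q ∈ Ico Q (2 * Q), |disc P (M q) q (a q)| ≤
      ∑ i ∈ range (K + 1), |disc P (m i) q (a q)| + (2 * (N / K + 1) / Q + 1) := by
    intro q hq
    rw [mem_Ico] at hq
    have hQq : (Q : ℝ) ≤ q := by exact_mod_cast hq.1
    have g1 := disc_diff P (hmM q) (q := q) (by omega) (a q)
    have g2 : |disc P (m (j q)) q (a q)| ≤ ∑ i ∈ range (K + 1), |disc P (m i) q (a q)| :=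
      single_le_sum (f := fun i => |disc P (m i) q (a q)|) (fun _ _ => abs_nonneg _)
        (mem_range.2 (Nat.lt_succ_of_le (hjK q)))
    have g3 : 2 * ((M q : ℝ) - m (j q)) / q ≤ 2 * (N / K + 1) / Q := by
      have g4 : (0 : ℝ) ≤ (M q : ℝ) - m (j q) := by
        have : (m (j q) : ℝ) ≤ M q := by exact_mod_cast hmM q
        linarith
      apply div_le_div₀ (by positivity) _ hQ0 hQq
      exact mul_le_mul_of_nonneg_left (hgap q) (by norm_num)
    have g5 : |disc P (M q) q (a q)| ≤ |disc P (M q) q (a q) - disc P (m (j q)) q (a q)| + |disc P (m (j q)) q (a q)| := by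
      have := abs_add_le (disc P (M q) q (a q) - disc P (m (j q)) q (a q)) (disc P (m (j q)) q (a q))
      rwa [sub_add_cancel] at this
    linarith
  refine (sum_le_sum step).trans ?_
  rw [sum_add_distrib, sum_const, Nat.card_Ico, nsmul_eq_mul, show 2 * Q - Q = Q by omega, sum_comm]
  have s1 : ∑ i ∈ range (K + 1), ∑ q ∈ Ico Q (2 * Q), |disc P (m i) q (a q)| ≤ ε / 2 * N := by
    calc ∑ i ∈ range (K + 1), ∑ q ∈ Ico Q (2 * Q), |disc P (m i) q (a q)|
        ≤ ∑ i ∈ range (K + 1), ε / (2 * (K + 1)) * N := by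
          apply sum_le_sum
          intro i hi
          rw [mem_range] at hi
          exact h1 P hP N hN1 Q hQ hQl (m i) (hmN i (by omega)) a
      _ = ε / 2 * N := by
          rw [sum_const, card_range, nsmul_eq_mul]
          push_cast
          field_simp
  have s2 : (Q : ℝ) * (2 * (N / K + 1) / Q + 1) = 2 / K * N + 2 + Q := by field_simp
  rw [s2]
  have s3 : 2 / (K : ℝ) * N ≤ ε / 4 * N := mul_le_mul_of_nonneg_right hKε hN0.le
  have s4 : (Q : ℝ) ≤ ε / 8 * N := hQl.trans h3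
  linarith

end Pool.Agent.Q37.BV
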