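import Pool.Agent.Q37.BV.Max

/-! The Titchmarsh divisor problem for the sets invariant under the Collatz map. -/

set_option autoImplicit false

namespace Pool.Agent.Q37.BV

open Finset Filter Topology Pool.Agent.Y967.CM

/-- the divisors of `m` below and above the square root -/
theorem card_div {m R : ℕ} (hm : 1 ≤ m) (hR : m < (R + 1) * (R + 1)) :
    2 * #{q ∈ Icc 1 R | q ∣ m ∧ q * q < m} ≤ #m.divisors ∧
      #m.divisors ≤ 2 * #{q ∈ Icc 1 R | q ∣ m ∧ q * q < m} + 1 := by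
  set A := {q ∈ m.divisors | q * q < m} with hA
  set B := {q ∈ m.divisors | m < q * q} with hB
  set C := {q ∈ m.divisors | q * q = m} with hC
  have hAe : ({q ∈ Icc 1 R | q ∣ m ∧ q * q < m} : Finset ℕ) = A := by
    ext q
    rw [hA, mem_filter, mem_filter, mem_Icc, Nat.mem_divisors]
    constructor
    · rintro ⟨_, h2, h3⟩
      exact ⟨⟨h2, by omega⟩, h3⟩
    · rintro ⟨⟨h1, _⟩, h3⟩
      have h4 : 1 ≤ q := Nat.pos_of_dvd_of_pos h1 hm
      refine ⟨⟨h4, ?_⟩, h1, h3⟩
      by_contra h5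
      have h6 : R + 1 ≤ q := by omega
      have := Nat.mul_le_mul h6 h6
      omega
  have hAB : #A = #B := by
    apply card_bij' (fun q _ => m / q) (fun q _ => m / q)
    · intro q hq
      rw [hA, mem_filter, Nat.mem_divisors] at hq
      rw [hB, mem_filter, Nat.mem_divisors]
      obtain ⟨⟨⟨c, hc⟩, _⟩, h3⟩ := hq
      have hq0 : 0 < q := Nat.pos_of_ne_zero (by rintro rfl; simp at hc; omega)
      rw [hc, Nat.mul_div_cancel_left _ hq0]
      refine ⟨⟨⟨q, by ring⟩, by omega⟩, ?_⟩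
      rw [hc] at h3
      have h4 : q < c := Nat.lt_of_mul_lt_mul_left h3
      exact Nat.mul_lt_mul_of_pos_right h4 (by omega)
    · intro q hq
      rw [hB, mem_filter, Nat.mem_divisors] at hq
      rw [hA, mem_filter, Nat.mem_divisors]
      obtain ⟨⟨⟨c, hc⟩, _⟩, h3⟩ := hq
      have hq0 : 0 < q := Nat.pos_of_ne_zero (by rintro rfl; simp at hc; omega)
      have hc0 : 0 < c := Nat.pos_of_ne_zero (by rintro rfl; simp at hc; omega)
      rw [hc, Nat.mul_div_cancel_left _ hq0]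
      refine ⟨⟨⟨q, by ring⟩, by omega⟩, ?_⟩
      rw [hc] at h3
      have h4 : c < q := Nat.lt_of_mul_lt_mul_left h3
      exact Nat.mul_lt_mul_of_pos_right h4 hc0
    · intro q hq
      rw [hA, mem_filter, Nat.mem_divisors] at hq
      exact Nat.div_div_self hq.1.1 hq.1.2
    · intro q hq
      rw [hB, mem_filter, Nat.mem_divisors] at hq
      exact Nat.div_div_self hq.1.1 hq.1.2
  have hC1 : #C ≤ 1 := by
    rw [card_le_one]
    intro a ha b hb
    rw [hC, mem_filter] at ha hb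
    have h1 : a * a = b * b := ha.2.trans hb.2.symm
    nlinarith [Nat.mul_self_inj.1 h1]
  have hsum : #m.divisors = #A + #B + #C := by
    have e1 : m.divisors = (A ∪ B) ∪ C := by
      ext q
      rw [mem_union, mem_union, hA, hB, hC, mem_filter, mem_filter, mem_filter]
      constructor
      · intro h
        rcases lt_trichotomy (q * q) m with h1 | h1 | h1
        · exact Or.inl (Or.inl ⟨h, h1⟩)
        · exact Or.inr ⟨h, h1⟩
        · exact Or.inl (Or.inr ⟨h, h1⟩)
      · rintro ((h | h) | h)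
        · exact h.1
        · exact h.1
        · exact h.1
    have d1 : Disjoint A B := by
      rw [disjoint_left]
      intro q h1 h2
      rw [hA, mem_filter] at h1
      rw [hB, mem_filter] at h2
      omega
    have d2 : Disjoint (A ∪ B) C := by
      rw [disjoint_left]
      intro q h1 h2
      rw [mem_union, hA, hB, mem_filter, mem_filter] at h1
      rw [hC, mem_filter] at h2
      rcases h1 with h1 | h1
      · omega
      · omega
    conv_lhs => rw [e1]
    rw [card_union_of_disjoint d2, card_union_of_disjoint d1]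
  rw [hAe]
  omega

/-- the number of elements -/
noncomputable def c1 (P : ℕ → Prop) (M : ℕ) : ℝ := ∑ n ∈ Ico (1 : ℤ) (1 + M), FP P n

theorem c1_nonneg (P : ℕ → Prop) (M : ℕ) : 0 ≤ c1 P M := sum_nonneg fun n _ => (FP_bd P n).1

theorem c1_le (P : ℕ → Prop) (M : ℕ) : c1 P M ≤ M := by
  unfold c1
  calc ∑ n ∈ Ico (1 : ℤ) (1 + M), FP P n ≤ ∑ n ∈ Ico (1 : ℤ) (1 + M), (1 : ℝ) := sum_le_sum fun n _ => (FP_bd P n).2
    _ = M := by rw [sum_const, Int.card_Ico, nsmul_eq_mul]; simp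

theorem disc_eq (P : ℕ → Prop) (M q : ℕ) (a : ℤ) :
    disc P M q a = ∑ n ∈ Ico (1 : ℤ) (1 + M), ind q a n * FP P n - c1 P M / q := by
  unfold disc c1 bal
  rw [sum_div, ← sum_sub_distrib]
  apply sum_congr rfl
  intro n _
  ring

/-- the elements with `q ∣ n + k`, `q * q < n + k` -/
theorem seg_eq (P : ℕ → Prop) (N k q : ℕ) :
    ∑ n ∈ Icc 1 N, FP P ((n : ℕ) : ℤ) * (if q ∣ n + k ∧ q * q < n + k then 1 else 0) =
      disc P N q (-(k : ℤ)) - disc P (min N (q * q - k)) q (-(k : ℤ)) + (c1 P N - c1 P (min N (q * q - k))) / q := by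
  rw [disc_eq, disc_eq]
  set M := min N (q * q - k) with hM
  have e1 : ∀ L : ℕ, ∑ n ∈ Ico (1 : ℤ) (1 + L), ind q (-(k : ℤ)) n * FP P n =
      ∑ n ∈ Icc 1 L, FP P ((n : ℕ) : ℤ) * (if q ∣ n + k then 1 else 0) := by
    intro L
    rw [sum_Ico_nat]
    apply sum_congr rfl
    intro n _
    have : (q : ℤ) ∣ (n : ℤ) - -(k : ℤ) ↔ q ∣ n + k := by
      rw [sub_neg_eq_add]
      exact_mod_cast Iff.rfl
    unfold ind
    simp only [this]
    ring
  rw [e1, e1]
  have e2 : ∑ n ∈ Icc 1 M, FP P ((n : ℕ) : ℤ) * (if q ∣ n + k then 1 else 0) =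
      ∑ n ∈ Icc 1 N, FP P ((n : ℕ) : ℤ) * (if q ∣ n + k ∧ ¬ q * q < n + k then 1 else 0) := by
    symm
    have hs : Icc 1 M ⊆ Icc 1 N := Icc_subset_Icc_right (min_le_left _ _)
    rw [← sum_subset hs]
    · apply sum_congr rfl
      intro n hn
      rw [mem_Icc] at hn
      have : ¬ q * q < n + k := by
        have := hn.2
        have h2 : n ≤ q * q - k := this.trans (min_le_right _ _)
        omega
      simp only [this, not_false_eq_true, and_true]
    · intro n hn hn2
      rw [mem_Icc] at hn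
      rw [mem_Icc] at hn2
      have : q * q < n + k := by
        by_contra h
        apply hn2
        refine ⟨hn.1, le_min hn.2 (by omega)⟩
      simp [this]
  rw [e2]
  have e3 : ∑ n ∈ Icc 1 N, FP P ((n : ℕ) : ℤ) * (if q ∣ n + k then 1 else 0) =
      ∑ n ∈ Icc 1 N, FP P ((n : ℕ) : ℤ) * (if q ∣ n + k ∧ q * q < n + k then 1 else 0) +
      ∑ n ∈ Icc 1 N, FP P ((n : ℕ) : ℤ) * (if q ∣ n + k ∧ ¬ q * q < n + k then 1 else 0) := by
    rw [← sum_add_distrib]
    apply sum_congr rfl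
    intro n _
    by_cases h1 : q ∣ n + k <;> by_cases h2 : q * q < n + k <;> simp [h1, h2]
  rw [e3]
  ring

theorem dyadic (R : ℕ) (g : ℕ → ℝ) (hg : ∀ q, 0 ≤ g q) :
    ∑ q ∈ Icc 1 R, g q ≤ ∑ i ∈ range (Nat.log 2 R + 1), ∑ q ∈ Ico (2 ^ i) (2 * 2 ^ i), g q := by
  have hsub : Icc 1 R ⊆ (range (Nat.log 2 R + 1)).biUnion (fun i => Ico (2 ^ i) (2 * 2 ^ i)) := by
    intro q hq
    rw [mem_Icc] at hq
    rw [mem_biUnion]
    refine ⟨Nat.log 2 q, ?_, ?_⟩
    · rw [mem_range]
      exact Nat.lt_succ_of_le (Nat.log_mono_right hq.2)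
    · rw [mem_Ico]
      refine ⟨Nat.pow_log_le_self 2 (by omega), ?_⟩
      have := Nat.lt_pow_succ_log_self (b := 2) (by norm_num) q
      rwa [pow_succ, mul_comm] at this
  refine (sum_le_sum_of_subset_of_nonneg hsub fun q _ _ => hg q).trans ?_
  apply le_of_eq
  apply sum_biUnion
  intro i _ j _ hij
  simp only [Function.onFun]
  rw [disjoint_left]
  intro q h1 h2
  rw [mem_Ico] at h1 h2
  rcases lt_or_gt_of_ne hij with h | h
  · have := Nat.pow_le_pow_right (show 0 < 2 by norm_num) (show i + 1 ≤ j by omega)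
    rw [pow_succ] at this
    omega
  · have := Nat.pow_le_pow_right (show 0 < 2 by norm_num) (show j + 1 ≤ i by omega)
    rw [pow_succ] at this
    omega

theorem titchmarsh {ε : ℝ} (hε : 0 < ε) : ∃ N₀ : ℕ, ∀ P : ℕ → Prop, InvT P → ∀ N : ℕ, N₀ ≤ N → ∀ k : ℕ, k ≤ N →
    |∑ n ∈ Icc 1 N, FP P ((n : ℕ) : ℤ) * (#(n + k).divisors : ℝ) - c1 P N * Real.log N| ≤ ε * (N * Real.log N) := by
  obtain ⟨N₁, h1⟩ := level_max (show (0 : ℝ) < 1 / 4 by norm_num) (show 0 < ε / 32 by positivity)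
  obtain ⟨N₂, h2⟩ := eventually_atTop.1 (log_nat_tendsto.eventually_ge_atTop (max 8 (16 / ε)))
  refine ⟨max N₁ (max N₂ 1), fun P hP N hN k hk => ?_⟩
  have hN1 : N₁ ≤ N := (le_max_left _ _).trans hN
  have hN2 : N₂ ≤ N := (le_max_left _ _).trans ((le_max_right _ _).trans hN)
  have hN3 : 1 ≤ N := (le_max_right _ _).trans ((le_max_right _ _).trans hN)
  have h3 := h2 N hN2
  set x := Real.log N with hx
  have hx8 : 8 ≤ x := (le_max_left _ _).trans h3
  have hxε : 16 / ε ≤ x := (le_max_right _ _).trans h3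
  have hN0 : (0 : ℝ) < N := by exact_mod_cast hN3
  set R := Nat.sqrt (2 * N) with hR
  have hR1 : 1 ≤ R := by rw [hR, Nat.le_sqrt]; omega
  have hRle : R * R ≤ 2 * N := Nat.sqrt_le _
  have hRlt : 2 * N < (R + 1) * (R + 1) := Nat.lt_succ_sqrt (2 * N)
  have hR0 : (0 : ℝ) < R := by exact_mod_cast hR1
  have hRr : (R : ℝ) * R ≤ 2 * N := by exact_mod_cast hRle
  have hRr' : (2 : ℝ) * N < (R + 1) * (R + 1) := by exact_mod_cast hRlt
  have l2a := Real.log_two_lt_d9
  have l2b := Real.log_two_gt_d9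
  have hlogR : 2 * Real.log R ≤ Real.log 2 + x := by
    have := Real.log_le_log (by positivity) hRr
    rw [Real.log_mul hR0.ne' hR0.ne', Real.log_mul (by norm_num) hN0.ne'] at this
    linarith
  have hlogR' : Real.log 2 + x ≤ 2 * Real.log (R + 1) := by
    have := Real.log_le_log (by positivity) hRr'.le
    have hR10 : (R : ℝ) + 1 ≠ 0 := by positivity
    rw [Real.log_mul (by norm_num) hN0.ne', Real.log_mul hR10 hR10] at this
    linarith
  set I := Nat.log 2 R + 1 with hI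
  have hIx : (I : ℝ) ≤ 2 * x := by
    have g1 : ((2 : ℝ)) ^ (Nat.log 2 R) ≤ R := by exact_mod_cast Nat.pow_log_le_self 2 (by omega : R ≠ 0)
    have g2 := Real.log_le_log (by positivity) g1
    rw [Real.log_pow] at g2
    rw [hI]
    push_cast
    have g3 : (0 : ℝ) ≤ (Nat.log 2 R : ℝ) := Nat.cast_nonneg _
    nlinarith
  -- the divisors
  set A : ℕ → ℕ := fun n => #{q ∈ Icc 1 R | q ∣ n + k ∧ q * q < n + k} with hA
  have hdiv : ∀ n ∈ Icc 1 N, 2 * A n ≤ #(n + k).divisors ∧ #(n + k).divisors ≤ 2 * A n + 1 := by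
    intro n hn
    rw [mem_Icc] at hn
    exact card_div (by omega) (by omega)
  set S := ∑ n ∈ Icc 1 N, FP P ((n : ℕ) : ℤ) * (#(n + k).divisors : ℝ) with hS
  set S1 := ∑ n ∈ Icc 1 N, FP P ((n : ℕ) : ℤ) * (A n : ℝ) with hS1
  have hc1 : c1 P N = ∑ n ∈ Icc 1 N, FP P ((n : ℕ) : ℤ) := by unfold c1; rw [sum_Ico_nat]
  have b1 : |S - 2 * S1| ≤ N := by
    have g1 : S - 2 * S1 = ∑ n ∈ Icc 1 N, FP P ((n : ℕ) : ℤ) * ((#(n + k).divisors : ℝ) - 2 * (A n : ℝ)) := by
      rw [hS, hS1, mul_sum, ← sum_sub_distrib]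
      apply sum_congr rfl
      intro n _
      ring
    rw [g1]
    calc |∑ n ∈ Icc 1 N, FP P ((n : ℕ) : ℤ) * ((#(n + k).divisors : ℝ) - 2 * (A n : ℝ))|
        ≤ ∑ n ∈ Icc 1 N, (1 : ℝ) := by
          refine (abs_sum_le_sum_abs _ _).trans (sum_le_sum fun n hn => ?_)
          obtain ⟨g2, g3⟩ := hdiv n hn
          have g2' : (2 : ℝ) * A n ≤ (#(n + k).divisors : ℝ) := by exact_mod_cast g2
          have g3' : (#(n + k).divisors : ℝ) ≤ 2 * A n + 1 := by exact_mod_cast g3
          have g4 := FP_bd P (n : ℤ)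
          rw [abs_mul, abs_of_nonneg g4.1, abs_of_nonneg (by linarith)]
          calc FP P (n : ℤ) * ((#(n + k).divisors : ℝ) - 2 * (A n : ℝ)) ≤ 1 * 1 :=
                mul_le_mul g4.2 (by linarith) (by linarith) (by norm_num)
            _ = 1 := by norm_num
      _ = N := by rw [sum_const, Nat.card_Icc, nsmul_eq_mul]; simp
  have e1 : S1 = ∑ q ∈ Icc 1 R, (disc P N q (-(k : ℤ)) - disc P (min N (q * q - k)) q (-(k : ℤ)) +
      (c1 P N - c1 P (min N (q * q - k))) / q) := by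
    rw [hS1]
    rw [sum_congr rfl (fun q _ => (seg_eq P N k q).symm), sum_comm]
    apply sum_congr rfl
    intro n _
    simp only [hA]
    rw [card_filter]
    push_cast
    rw [mul_sum]
  rw [sum_add_distrib] at e1
  set D := ∑ q ∈ Icc 1 R, (disc P N q (-(k : ℤ)) - disc P (min N (q * q - k)) q (-(k : ℤ))) with hD
  set T := ∑ q ∈ Icc 1 R, (c1 P N - c1 P (min N (q * q - k))) / q with hT
  -- the level
  have hlev : ∀ i ∈ range I, ((2 ^ i : ℕ) : ℝ) ≤ lev (1 / 4) N := by
    intro i hi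
    rw [mem_range] at hi
    have g1 : 2 ^ i ≤ R := (Nat.pow_le_pow_right (by norm_num) (by omega)).trans (Nat.pow_log_le_self 2 (by omega : R ≠ 0))
    have g1' : ((2 ^ i : ℕ) : ℝ) ≤ R := by exact_mod_cast g1
    refine g1'.trans ?_
    unfold lev
    have g2 : (1 : ℝ) ≤ x ^ (1 / 2 - 1 / 4 : ℝ) := Real.one_le_rpow (by linarith) (by norm_num)
    have g3 : (2 : ℝ) ≤ Real.exp (x ^ (1 / 2 - 1 / 4 : ℝ)) := by
      have g4 : Real.exp 1 ≤ Real.exp (x ^ (1 / 2 - 1 / 4 : ℝ)) := Real.exp_le_exp.2 g2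
      have := Real.exp_one_gt_d9
      linarith
    have g5 : (R : ℝ) ≤ √ (N : ℝ) * 2 := by
      have g6 : (R : ℝ) ≤ √ (2 * (N : ℝ)) := by
        apply Real.le_sqrt_of_sq_le
        rw [sq]; exact hRr
      have g7 : √ (2 * (N : ℝ)) ≤ √ (N : ℝ) * 2 := by
        rw [Real.sqrt_le_left (by positivity), mul_pow, Real.sq_sqrt hN0.le]
        linarith
      exact g6.trans g7
    exact g5.trans (mul_le_mul_of_nonneg_left g3 (Real.sqrt_nonneg _))
  have hDle : |D| ≤ ε / 8 * (N * x) := by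
    have g0 : ∀ M : ℕ → ℕ, (∀ q, M q ≤ N) →
        ∑ q ∈ Icc 1 R, |disc P (M q) q (-(k : ℤ))| ≤ ε / 16 * (N * x) := by
      intro M hM
      refine (dyadic R (fun q => |disc P (M q) q (-(k : ℤ))|) (fun _ => abs_nonneg _)).trans ?_
      calc ∑ i ∈ range I, ∑ q ∈ Ico (2 ^ i) (2 * 2 ^ i), |disc P (M q) q (-(k : ℤ))|
          ≤ ∑ i ∈ range I, ε / 32 * N := by
            apply sum_le_sum
            intro i hi
            exact h1 P hP N hN1 (2 ^ i) Nat.one_le_two_pow (hlev i hi) M hM (fun _ => -(k : ℤ))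
        _ = I * (ε / 32 * N) := by rw [sum_const, card_range, nsmul_eq_mul]
        _ ≤ (2 * x) * (ε / 32 * N) := mul_le_mul_of_nonneg_right hIx (by positivity)
        _ = ε / 16 * (N * x) := by ring
    have g1 := g0 (fun _ => N) (fun _ => le_rfl)
    have g2 := g0 (fun q => min N (q * q - k)) (fun q => min_le_left _ _)
    calc |D| ≤ ∑ q ∈ Icc 1 R, (|disc P N q (-(k : ℤ))| + |disc P (min N (q * q - k)) q (-(k : ℤ))|) :=
          (abs_sum_le_sum_abs _ _).trans (sum_le_sum fun q _ => abs_sub _ _)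
      _ ≤ ε / 8 * (N * x) := by rw [sum_add_distrib]; linarith
  have hTle : |2 * T - c1 P N * x| ≤ 7 * N := by
    have g1 : T = c1 P N * (∑ q ∈ Icc 1 R, (1 : ℝ) / q) - ∑ q ∈ Icc 1 R, c1 P (min N (q * q - k)) / q := by
      rw [hT, mul_sum, ← sum_sub_distrib]
      apply sum_congr rfl
      intro q _
      ring
    set h := ∑ q ∈ Icc 1 R, (1 : ℝ) / q with hh
    set E := ∑ q ∈ Icc 1 R, c1 P (min N (q * q - k)) / q with hE
    have hE0 : 0 ≤ E := sum_nonneg fun q _ => div_nonneg (c1_nonneg _ _) (Nat.cast_nonneg _)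
    have hE1 : E ≤ 2 * N := by
      calc E ≤ ∑ q ∈ Icc 1 R, (R : ℝ) := by
            apply sum_le_sum
            intro q hq
            rw [mem_Icc] at hq
            have hq0 : (0 : ℝ) < q := by exact_mod_cast hq.1
            have hqR : (q : ℝ) ≤ R := by exact_mod_cast hq.2
            rw [div_le_iff₀ hq0]
            have a1 := c1_le P (min N (q * q - k))
            have a2 : ((min N (q * q - k) : ℕ) : ℝ) ≤ q * q := by
              have : min N (q * q - k) ≤ q * q := (min_le_right _ _).trans (Nat.sub_le _ _)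
              exact_mod_cast this
            nlinarith
        _ = R * R := by rw [sum_const, Nat.card_Icc, nsmul_eq_mul]; simp
        _ ≤ 2 * N := hRr
    have hh2 : ((harmonic R : ℚ) : ℝ) = h := by
      rw [harmonic_eq_sum_Icc, hh]
      push_cast
      apply sum_congr rfl
      intro d _
      rw [one_div]
    have hh3 := harmonic_le_one_add_log R
    have hh4 := log_add_one_le_harmonic R
    rw [hh2] at hh3 hh4
    push_cast at hh4
    have hcN0 := c1_nonneg P N
    have hcN1 := c1_le P N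
    have e2 : 2 * T - c1 P N * x = c1 P N * (2 * h - x) - 2 * E := by rw [g1]; ring
    rw [e2, abs_le]
    have a1 : 0 ≤ 2 * h - x := by linarith
    have a2 : 2 * h - x ≤ 3 := by linarith
    constructor
    · have : 0 ≤ c1 P N * (2 * h - x) := mul_nonneg hcN0 a1
      linarith
    · have : c1 P N * (2 * h - x) ≤ N * 3 := mul_le_mul hcN1 a2 a1 (by positivity)
      linarith
  have hfin : 16 * (N : ℝ) ≤ ε * (N * x) := by
    rw [div_le_iff₀ hε] at hxε
    nlinarith
  have e3 : S - c1 P N * x = (S - 2 * S1) + 2 * D + (2 * T - c1 P N * x) := by rw [e1]; ring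
  rw [e3]
  rw [abs_le] at b1 hDle hTle ⊢
  constructor <;> linarith [b1.1, b1.2, hDle.1, hDle.2, hTle.1, hTle.2]

end Pool.Agent.Q37.BV
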